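import Pool.Agent.Helper80.KC.Goals

/-!
# Packet KC-BOD: bodies and axes
-/

set_option autoImplicit false

open Module

namespace Pool.Agent.Helper69.KC

open Pool.Agent.Helper80.KC

section

variable {n : ℕ}

theorem exists_foot (L : AffineSubspace ℝ (E n)) (hL : (L : Set (E n)).Nonempty) (z : E n) :
    ∃ q ∈ L, Metric.infDist z (L : Set (E n)) = dist z q := by
  have hc : IsClosed (L : Set (E n)) := AffineSubspace.closed_of_finiteDimensional L
  obtain ⟨q, hq, h⟩ := hc.exists_infDist_eq_dist hL z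
  exact ⟨q, hq, h⟩

/-- points moved away from their foot -/
theorem infDist_push (L : AffineSubspace ℝ (E n)) (hL : (L : Set (E n)).Nonempty) (z q : E n)
    (hq : q ∈ L) (ε : ℝ) (hε : 0 ≤ ε) :
    (1 + ε) * Metric.infDist z (L : Set (E n)) ≤
      Metric.infDist (z + ε • (z - q)) (L : Set (E n)) := by
  rw [Metric.le_infDist hL]
  intro y hy
  have hpos : (0 : ℝ) < 1 + ε := by linarith
  have hy' : AffineMap.lineMap q y (1 + ε)⁻¹ ∈ L := AffineMap.lineMap_mem _ hq hy
  have h1 : Metric.infDist z (L : Set (E n)) ≤ dist z (AffineMap.lineMap q y (1 + ε)⁻¹) :=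
    Metric.infDist_le_dist_of_mem hy'
  have h2 : z + ε • (z - q) - y = (1 + ε) • (z - AffineMap.lineMap q y (1 + ε)⁻¹) := by
    rw [AffineMap.lineMap_apply, vsub_eq_sub, vadd_eq_add]
    rw [smul_sub (1 + ε) z, smul_add (1 + ε), smul_smul, mul_inv_cancel₀ hpos.ne', one_smul,
      add_smul 1 ε z, add_smul 1 ε q, one_smul, one_smul, smul_sub]
    abel
  rw [dist_eq_norm, h2, norm_smul, Real.norm_of_nonneg hpos.le, ← dist_eq_norm]
  exact mul_le_mul_of_nonneg_left h1 hpos.le

theorem interior_body (L : AffineSubspace ℝ (E n)) (hL : (L : Set (E n)).Nonempty) :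
    interior {x : E n | Metric.infDist x (L : Set (E n)) ≤ 1} =
      {x | Metric.infDist x (L : Set (E n)) < 1} := by
  apply Set.Subset.antisymm
  · intro x hx
    have hx0 : x ∈ {x : E n | Metric.infDist x (L : Set (E n)) ≤ 1} := interior_subset hx
    have hx1 : Metric.infDist x (L : Set (E n)) ≤ 1 := hx0
    rcases hx1.lt_or_eq with h | h
    · exact h
    exfalso
    obtain ⟨q, hq, hd⟩ := exists_foot L hL x
    have hcont : Continuous fun ε : ℝ => x + ε • (x - q) := by fun_prop
    have hmem : ∀ᶠ ε : ℝ in nhds 0, x + ε • (x - q) ∈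
        {x : E n | Metric.infDist x (L : Set (E n)) ≤ 1} := by
      have h0 : Filter.Tendsto (fun ε : ℝ => x + ε • (x - q)) (nhds 0) (nhds x) := by
        have := hcont.tendsto 0
        simpa using this
      exact h0.eventually (mem_interior_iff_mem_nhds.1 hx)
    obtain ⟨δ, hδ, hball⟩ := Metric.eventually_nhds_iff.1 hmem
    have h3 := hball (y := δ / 2) (by
      rw [Real.dist_eq, sub_zero, abs_of_pos (by linarith)]
      linarith)
    have h4 := infDist_push L hL x q hq (δ / 2) (by linarith)
    have h5 : Metric.infDist (x + (δ / 2) • (x - q)) (L : Set (E n)) ≤ 1 := h3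
    rw [h] at h4
    linarith
  · apply interior_maximal
    · intro x hx
      have hx1 : Metric.infDist x (L : Set (E n)) < 1 := hx
      exact hx1.le
    · exact isOpen_lt (Metric.continuous_infDist_pt _) continuous_const

theorem infDist_le_norm (L : AffineSubspace ℝ (E n)) (z : E n) :
    Metric.infDist 0 (L : Set (E n)) ≤ Metric.infDist z (L : Set (E n)) + ‖z‖ := by
  have h := Metric.infDist_le_infDist_add_dist (s := (L : Set (E n))) (x := 0) (y := z)
  rwa [dist_zero_left] at h

theorem half_foot (L : AffineSubspace ℝ (E n)) (q : E n) (hq : q ∈ L) :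
    Metric.infDist ((2⁻¹ : ℝ) • q) (L : Set (E n)) ≤ ‖q‖ / 2 := by
  have h := Metric.infDist_le_dist_of_mem (x := (2⁻¹ : ℝ) • q) (s := (L : Set (E n))) hq
  have h2 : dist ((2⁻¹ : ℝ) • q) q = ‖q‖ / 2 := by
    have : (2⁻¹ : ℝ) • q - q = (-(2⁻¹) : ℝ) • q := by
      rw [neg_smul, sub_eq_iff_eq_add]
      rw [← sub_eq_neg_add, eq_sub_iff_add_eq, ← add_smul]
      norm_num
    rw [dist_eq_norm, this, norm_smul]
    norm_num
    ring
  rwa [h2] at h

theorem norm_half (q : E n) : ‖(2⁻¹ : ℝ) • q‖ = ‖q‖ / 2 := by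
  rw [norm_smul]
  norm_num
  ring

theorem touches_iff (L : AffineSubspace ℝ (E n)) (hL : (L : Set (E n)).Nonempty) :
    Touches {x : E n | Metric.infDist x (L : Set (E n)) ≤ 1} ↔
      Metric.infDist 0 (L : Set (E n)) = 2 := by
  obtain ⟨q, hq, hd⟩ := exists_foot L hL 0
  rw [dist_zero_left] at hd
  have hint : interior (Metric.closedBall (0 : E n) 1) = Metric.ball 0 1 :=
    interior_closedBall 0 one_ne_zero
  rw [Touches, interior_body L hL, hint]
  constructor
  · rintro ⟨⟨z, hz1, hz2⟩, hdis⟩
    apply le_antisymm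
    · have h1 := infDist_le_norm L z
      have h2 : ‖z‖ ≤ 1 := by simpa using hz2
      have h3 : Metric.infDist z (L : Set (E n)) ≤ 1 := hz1
      linarith
    · by_contra hlt
      push Not at hlt
      rw [hd] at hlt
      refine (Set.disjoint_left.1 hdis (?_ : (2⁻¹ : ℝ) • q ∈ _)) ?_
      · have := half_foot L q hq
        change Metric.infDist ((2⁻¹ : ℝ) • q) (L : Set (E n)) < 1
        linarith
      · rw [mem_ball_zero_iff, norm_half]
        linarith
  · intro h
    rw [h] at hd
    refine ⟨⟨(2⁻¹ : ℝ) • q, ?_, ?_⟩, ?_⟩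
    · have := half_foot L q hq
      change Metric.infDist ((2⁻¹ : ℝ) • q) (L : Set (E n)) ≤ 1
      linarith
    · rw [mem_closedBall_zero_iff, norm_half]
      linarith
    · rw [Set.disjoint_left]
      intro z hz1 hz2
      have h1 := infDist_le_norm L z
      have h2 : ‖z‖ < 1 := by simpa using hz2
      have h3 : Metric.infDist z (L : Set (E n)) < 1 := hz1
      linarith

theorem disjoint_iff' (L L' : AffineSubspace ℝ (E n)) (hL : (L : Set (E n)).Nonempty)
    (hL' : (L' : Set (E n)).Nonempty) :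
    Disjoint (interior {x : E n | Metric.infDist x (L : Set (E n)) ≤ 1})
      (interior {x : E n | Metric.infDist x (L' : Set (E n)) ≤ 1}) ↔
      ∀ x ∈ L, ∀ y ∈ L', 2 ≤ dist x y := by
  rw [interior_body L hL, interior_body L' hL', Set.disjoint_left]
  constructor
  · intro h x hx y hy
    by_contra hlt
    push Not at hlt
    refine h (a := midpoint ℝ x y) ?_ ?_
    · change Metric.infDist (midpoint ℝ x y) (L : Set (E n)) < 1
      refine lt_of_le_of_lt (Metric.infDist_le_dist_of_mem hx) ?_
      rw [dist_midpoint_left]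
      norm_num
      linarith
    · change Metric.infDist (midpoint ℝ x y) (L' : Set (E n)) < 1
      refine lt_of_le_of_lt (Metric.infDist_le_dist_of_mem hy) ?_
      rw [dist_midpoint_right]
      norm_num
      linarith
  · intro h z hz1 hz2
    obtain ⟨x, hx, hxz⟩ := (Metric.infDist_lt_iff hL).1 hz1
    obtain ⟨y, hy, hyz⟩ := (Metric.infDist_lt_iff hL').1 hz2
    have h1 := h x hx y hy
    have h2 := dist_triangle_left x y z
    linarith

end

theorem goalBOD : G_BOD := by
  intro k j
  constructor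
  · rintro ⟨C, hC, hdis⟩
    choose hcyl htouch using hC
    choose L hne hdim hCL using hcyl
    refine ⟨L, fun i => ⟨hne i, hdim i, ?_⟩, ?_⟩
    · rw [← touches_iff (L i) (hne i), ← hCL i]
      exact htouch i
    · intro i i' hii
      rw [← disjoint_iff' (L i) (L i') (hne i) (hne i'), ← hCL i, ← hCL i']
      exact hdis i i' hii
  · rintro ⟨L, hL, hdis⟩
    refine ⟨fun i => {x | Metric.infDist x (L i : Set (E (3 + j))) ≤ 1}, fun i => ⟨?_, ?_⟩, ?_⟩
    · exact ⟨L i, (hL i).1, (hL i).2.1, rfl⟩
    · exact (touches_iff (L i) (hL i).1).2 (hL i).2.2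
    · intro i i' hii
      exact (disjoint_iff' (L i) (L i') (hL i).1 (hL i').1).2 (hdis i i' hii)

end Pool.Agent.Helper69.KC
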