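import Pool.Agent.Helper69.KC.Tab

set_option autoImplicit false

namespace Pool.Agent.Helper69.KC

theorem t1a : ((LT.take 7).all fun l => RT.all fun r => chkLR l r) = true := by decide +kernel

theorem t1b : ((LT.drop 7).all fun l => RT.all fun r => chkLR l r) = true := by decide +kernel

theorem t1 : (LT.all fun l => RT.all fun r => chkLR l r) = true := by
  have := List.take_append_drop 7 LT
  rw [← this, List.all_append, t1a, t1b]
  rfl

end Pool.Agent.Helper69.KC
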