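import Pool.Agent.Helper69.KC.Tab

set_option autoImplicit false

namespace Pool.Agent.Helper69.KC

theorem t3 : (LT.all fun l => RX.all fun r => chkLR l r) = true := by decide +kernel

theorem t4 : (LX.all fun l => RT.all fun r => chkLR l r) = true := by decide +kernel

theorem t5 : (LX.all fun l => RX.all fun r => !(Nat.beq l.1.2 r.1.2) || chkLR l r) = true := by
  decide +kernel

end Pool.Agent.Helper69.KC
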