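import Pool.Agent.Helper69.KC.Tab

set_option autoImplicit false

namespace Pool.Agent.Helper69.KC

theorem tu0 : (UT0.all fun l => FR.all fun r => chkU l r) = true := by decide +kernel

end Pool.Agent.Helper69.KC
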