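import Pool.Agent.Helper28.KC.A1
import Pool.Agent.Helper69.KC.T1
import Pool.Agent.Helper69.KC.T2
import Pool.Agent.Helper69.KC.TU0
import Pool.Agent.Helper69.KC.TU1
import Pool.Agent.Helper69.KC.TU2
import Pool.Agent.Helper69.KC.TU3
import Pool.Agent.Helper69.KC.TU4

/-!
Every explicit value is an upper bound for the crossing number of the multiplied graph.
-/

set_option autoImplicit false

namespace Pool.Agent.Helper69.KC

open MGraph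

theorem cr_le_of_chk (m : Fin 20 → ℕ) {X Y : ℕ} {P : List (Fin 20 × Fin 20)}
    (h : chk X Y (nums P) = true) :
    (G0.multiply m).cr ≤ (((P.map (fun p => m p.1 * m p.2)).sum : ℕ) : ℕ∞) := by
  obtain ⟨h1, h2⟩ := chk_spec h
  refine le_trans (straight_drawing (posZ X Y) P.toFinset h1 h2 m) ?_
  exact_mod_cast sum_toFinset_le P (fun p => m p.1 * m p.2)

theorem lt_mem : ∀ P ∈ LPairs, ∃ l ∈ LT, l.1 = (P.1.val, P.2.val) := by decide +kernel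

theorem rt_mem : ∀ Q ∈ RPairs, ∃ r ∈ RT, r.1 = (Q.1.val, Q.2.val) := by decide +kernel

theorem lx_mem : ∀ x ∈ XE, ∀ c ∈ CE, ∃ l ∈ LX, l.1 = (c.val, x.val) := by decide +kernel

theorem rx_mem : ∀ x ∈ XE, ∀ d ∈ DE, ∃ r ∈ RX, r.1 = (d.val, x.val) := by decide +kernel

theorem fr_mem : ∀ d ∈ DE, ∃ r ∈ FR, r.1 = d.val := by decide +kernel

theorem cr_le_U1 (m : Fin 20 → ℕ) {P Q : Fin 20 × Fin 20} (hP : P ∈ LPairs) (hQ : Q ∈ RPairs) :
    (G0.multiply m).cr ≤ ((m P.1 * m P.2 + m Q.1 * m Q.2 : ℕ) : ℕ∞) := by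
  obtain ⟨l, hl, hl1⟩ := lt_mem P hP
  obtain ⟨r, hr, hr1⟩ := rt_mem Q hQ
  have h := List.all_eq_true.mp (List.all_eq_true.mp t1 l hl) r hr
  unfold chkLR at h
  rw [hl1, hr1] at h
  have := cr_le_of_chk m (P := [P, Q]) h
  simpa using this

theorem cr_le_U3 (m : Fin 20 → ℕ) {P : Fin 20 × Fin 20} {d x : Fin 20} (hP : P ∈ LPairs)
    (hd : d ∈ DE) (hx : x ∈ XE) :
    (G0.multiply m).cr ≤ ((m P.1 * m P.2 + m x * m d : ℕ) : ℕ∞) := by
  obtain ⟨l, hl, hl1⟩ := lt_mem P hP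
  obtain ⟨r, hr, hr1⟩ := rx_mem x hx d hd
  have h := List.all_eq_true.mp (List.all_eq_true.mp t3 l hl) r hr
  unfold chkLR at h
  rw [hl1, hr1] at h
  have := cr_le_of_chk m (P := [P, (d, x)]) h
  simp only [List.map_cons, List.map_nil, List.sum_cons, List.sum_nil, add_zero] at this
  rw [Nat.mul_comm (m x)]
  exact this

theorem cr_le_U4 (m : Fin 20 → ℕ) {Q : Fin 20 × Fin 20} {c x : Fin 20} (hQ : Q ∈ RPairs)
    (hc : c ∈ CE) (hx : x ∈ XE) :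
    (G0.multiply m).cr ≤ ((m Q.1 * m Q.2 + m x * m c : ℕ) : ℕ∞) := by
  obtain ⟨l, hl, hl1⟩ := lx_mem x hx c hc
  obtain ⟨r, hr, hr1⟩ := rt_mem Q hQ
  have h := List.all_eq_true.mp (List.all_eq_true.mp t4 l hl) r hr
  unfold chkLR at h
  rw [hl1, hr1] at h
  have := cr_le_of_chk m (P := [(c, x), Q]) h
  simp only [List.map_cons, List.map_nil, List.sum_cons, List.sum_nil, add_zero] at this
  rw [Nat.mul_comm (m x), Nat.add_comm]
  exact this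

theorem cr_le_U5 (m : Fin 20 → ℕ) {c d x : Fin 20} (hc : c ∈ CE) (hd : d ∈ DE) (hx : x ∈ XE) :
    (G0.multiply m).cr ≤ ((m x * m c + m x * m d : ℕ) : ℕ∞) := by
  obtain ⟨l, hl, hl1⟩ := lx_mem x hx c hc
  obtain ⟨r, hr, hr1⟩ := rx_mem x hx d hd
  have h := List.all_eq_true.mp (List.all_eq_true.mp t5 l hl) r hr
  unfold chkLR at h
  rw [hl1, hr1] at h
  simp only [Bool.or_eq_true, Bool.not_eq_true', Nat.beq_refl, Bool.true_eq_false,
    false_or] at h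
  have := cr_le_of_chk m (P := [(c, x), (d, x)]) h
  simp only [List.map_cons, List.map_nil, List.sum_cons, List.sum_nil, add_zero] at this
  rw [Nat.mul_comm (m x), Nat.mul_comm (m x)]
  exact this

/-- All the left halves pulled apart. -/
def UT : List (List ℕ × (ℕ × ℕ) × ℕ × ℕ) := UT0 ++ UT1 ++ UT2 ++ UT3 ++ UT4

theorem tu : (UT.all fun l => FR.all fun r => chkU l r) = true := by
  unfold UT
  rw [List.all_append, List.all_append, List.all_append, List.all_append, tu0, tu1, tu2, tu3, tu4]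
  rfl

/-- The pair and the cut can be drawn together. -/
def Compat (S : List (Fin 20)) (P : Fin 20 × Fin 20) : Prop :=
  ∃ l ∈ UT, l.1 = S.map Fin.val ∧ l.2.1 = (P.1.val, P.2.val)

instance (S : List (Fin 20)) (P : Fin 20 × Fin 20) : Decidable (Compat S P) := by
  unfold Compat
  infer_instance

theorem cr_le_U2' (m : Fin 20 → ℕ) {S : List (Fin 20)} {P : Fin 20 × Fin 20} {d : Fin 20}
    (hSP : Compat S P) (hd : d ∈ DE) :
    (G0.multiply m).cr ≤ ((m P.1 * m P.2 + (S.map m).sum * m d : ℕ) : ℕ∞) := by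
  obtain ⟨l, hl, hl1, hl2⟩ := hSP
  obtain ⟨r, hr, hr1⟩ := fr_mem d hd
  have h := List.all_eq_true.mp (List.all_eq_true.mp tu l hl) r hr
  unfold chkU at h
  rw [hl1, hl2, hr1, List.map_map] at h
  have := cr_le_of_chk m (P := P :: S.map (fun g => (g, d))) (by
    unfold nums
    rw [List.map_cons, List.map_map]
    exact h)
  rw [List.map_cons, List.sum_cons, List.map_map] at this
  have e : (S.map ((fun p : Fin 20 × Fin 20 => m p.1 * m p.2) ∘ fun g => (g, d))).sum =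
      (S.map m).sum * m d := by
    rw [← List.sum_map_mul_right]
    rfl
  rw [e] at this
  exact this

/-- The resolutions of the pairs that cannot be drawn together with a cut:
`(S, P, g₁, g₂, h, P', S')`. -/
def RS : List (List (Fin 20) × (Fin 20 × Fin 20) × Fin 20 × Fin 20 × Fin 20 ×
    (Fin 20 × Fin 20) × List (Fin 20)) := [
  ([1, 4, 6], (0, 2), 6, 0, 2, (2, 6), [0, 1]),
  ([1, 4, 6], (0, 3), 4, 0, 3, (3, 4), [0, 1]),
  ([1, 4, 6], (0, 5), 6, 0, 5, (5, 6), [0, 1]),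
  ([1, 4, 6], (0, 7), 4, 0, 7, (4, 7), [0, 1]),
  ([0, 5, 7], (1, 2), 7, 1, 2, (2, 7), [0, 1]),
  ([0, 5, 7], (1, 3), 5, 1, 3, (3, 5), [0, 1]),
  ([0, 5, 7], (1, 4), 7, 1, 4, (4, 7), [0, 1]),
  ([0, 5, 7], (1, 6), 5, 1, 6, (5, 6), [0, 1]),
  ([4, 5, 6, 7], (0, 2), 6, 0, 2, (2, 6), [0, 5, 7]),
  ([4, 5, 6, 7], (0, 3), 4, 0, 3, (3, 4), [0, 5, 7]),
  ([4, 5, 6, 7], (1, 2), 7, 1, 2, (2, 7), [1, 4, 6]),
  ([4, 5, 6, 7], (1, 3), 5, 1, 3, (3, 5), [1, 4, 6]),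
  ([1, 5, 6, 2, 8], (0, 3), 5, 0, 3, (3, 5), [0, 1]),
  ([1, 5, 6, 2, 8], (0, 7), 2, 0, 7, (2, 7), [0, 1]),
  ([1, 5, 6, 2, 8], (3, 4), 1, 3, 4, (1, 4), [2, 3]),
  ([1, 5, 6, 2, 8], (4, 7), 2, 4, 7, (2, 7), [1, 4, 6]),
  ([0, 4, 7, 2, 8], (1, 3), 4, 1, 3, (3, 4), [0, 1]),
  ([0, 4, 7, 2, 8], (1, 6), 2, 1, 6, (2, 6), [0, 1]),
  ([0, 4, 7, 2, 8], (3, 5), 0, 3, 5, (0, 5), [2, 3]),
  ([0, 4, 7, 2, 8], (5, 6), 2, 5, 6, (2, 6), [0, 5, 7]),
  ([1, 7, 4, 3, 8], (0, 2), 7, 0, 2, (2, 7), [0, 1]),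
  ([1, 7, 4, 3, 8], (0, 5), 3, 0, 5, (3, 5), [0, 1]),
  ([1, 7, 4, 3, 8], (2, 6), 1, 2, 6, (1, 6), [2, 3]),
  ([1, 7, 4, 3, 8], (5, 6), 1, 5, 6, (1, 6), [3, 4, 5, 8]),
  ([0, 6, 5, 3, 8], (1, 2), 6, 1, 2, (2, 6), [0, 1]),
  ([0, 6, 5, 3, 8], (1, 4), 3, 1, 4, (3, 4), [0, 1]),
  ([0, 6, 5, 3, 8], (2, 7), 0, 2, 7, (0, 7), [2, 3]),
  ([0, 6, 5, 3, 8], (4, 7), 0, 4, 7, (0, 7), [3, 4, 5, 8]),
  ([2, 6, 7, 8], (0, 3), 7, 3, 0, (0, 7), [2, 3]),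
  ([2, 6, 7, 8], (1, 3), 6, 3, 1, (1, 6), [2, 3]),
  ([2, 6, 7, 8], (3, 4), 7, 3, 4, (4, 7), [2, 3]),
  ([2, 6, 7, 8], (3, 5), 6, 3, 5, (5, 6), [2, 3]),
  ([3, 4, 5, 8], (0, 2), 5, 2, 0, (0, 5), [2, 3]),
  ([3, 4, 5, 8], (1, 2), 4, 2, 1, (1, 4), [2, 3]),
  ([3, 4, 5, 8], (2, 6), 5, 2, 6, (5, 6), [2, 3]),
  ([3, 4, 5, 8], (2, 7), 4, 2, 7, (4, 7), [2, 3])]

theorem rs_mem : ∀ S ∈ Cuts, ∀ P ∈ LPairs, Compat S P ∨ ∃ r ∈ RS, r.1 = S ∧ r.2.1 = P := by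
  decide +kernel

theorem rs_ok : ∀ r ∈ RS, Compat r.1 r.2.2.2.2.2.1 ∧ Compat r.2.2.2.2.2.2 r.2.1 ∧
    (r.2.1 = (r.2.2.2.1, r.2.2.2.2.1) ∨ r.2.1 = (r.2.2.2.2.1, r.2.2.2.1)) ∧
    (r.2.2.2.2.2.1 = (r.2.2.1, r.2.2.2.2.1) ∨ r.2.2.2.2.2.1 = (r.2.2.2.2.1, r.2.2.1)) ∧
    r.2.2.1 ∈ r.1 ∧ r.2.2.2.2.2.2.Nodup ∧
    ∀ e ∈ r.2.2.2.2.2.2, e = r.2.2.2.1 ∨ e ∈ r.1.erase r.2.2.1 := by
  decide +kernel

theorem sum_le_of_nodup (m : Fin 20 → ℕ) (S' T : List (Fin 20)) (h1 : S'.Nodup)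
    (h2 : ∀ e ∈ S', e ∈ T) : (S'.map m).sum ≤ (T.map m).sum := by
  induction S' generalizing T with
  | nil => simp
  | cons a l ih =>
    have ha : a ∈ T := h2 a List.mem_cons_self
    rw [List.map_cons, List.sum_cons, ← List.sum_map_erase m ha]
    have := ih (T.erase a) (List.nodup_cons.mp h1).2 (fun e he => by
      have hne : e ≠ a := by
        rintro rfl
        exact (List.nodup_cons.mp h1).1 he
      exact (List.mem_erase_of_ne hne).mpr (h2 e (List.mem_cons_of_mem _ he)))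
    omega

theorem cr_le_U2 (m : Fin 20 → ℕ) {S : List (Fin 20)} {P : Fin 20 × Fin 20} {d : Fin 20}
    (hS : S ∈ Cuts) (hP : P ∈ LPairs) (hd : d ∈ DE) :
    (G0.multiply m).cr ≤ ((m P.1 * m P.2 + (S.map m).sum * m d : ℕ) : ℕ∞) := by
  rcases rs_mem S hS P hP with h | ⟨r, hr, rfl, rfl⟩
  · exact cr_le_U2' m h hd
  · obtain ⟨c1, c2, e1, e2, g1, nd, sub⟩ := rs_ok r hr
    obtain ⟨S, P, a, b, h, P', S'⟩ := r
    simp only at c1 c2 e1 e2 g1 nd sub ⊢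
    have f1 : m P.1 * m P.2 = m b * m h := by
      rcases e1 with e | e
      · rw [e]
      · rw [e]; exact Nat.mul_comm _ _
    have f2 : m P'.1 * m P'.2 = m a * m h := by
      rcases e2 with e | e
      · rw [e]
      · rw [e]; exact Nat.mul_comm _ _
    rcases le_total (m a) (m b) with hab | hab
    · refine le_trans (cr_le_U2' m c1 hd) ?_
      have : m P'.1 * m P'.2 ≤ m P.1 * m P.2 := by
        rw [f1, f2]
        exact Nat.mul_le_mul_right _ hab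
      exact_mod_cast Nat.add_le_add_right this _
    · refine le_trans (cr_le_U2' m c2 hd) ?_
      have h3 : (S'.map m).sum ≤ (S.map m).sum := by
        have := sum_le_of_nodup m S' (b :: S.erase a) nd (fun e he => List.mem_cons.mpr (sub e he))
        rw [List.map_cons, List.sum_cons] at this
        have h4 := List.sum_map_erase m g1
        omega
      exact_mod_cast Nat.add_le_add_left (Nat.mul_le_mul_right _ h3) _

theorem cr_le_of_achieved (m : Fin 20 → ℕ) (N : ℕ) (h : Achieved m N) :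
    (G0.multiply m).cr ≤ (N : ℕ∞) := by
  rcases h with ⟨P, hP, Q, hQ, h⟩ | ⟨S, hS, P, hP, d, hd, h⟩ | ⟨P, hP, d, hd, x, hx, h⟩ |
    ⟨Q, hQ, c, hc, x, hx, h⟩ | ⟨x, hx, c, hc, d, hd, h⟩
  · exact le_trans (cr_le_U1 m hP hQ) (by exact_mod_cast h)
  · exact le_trans (cr_le_U2 m hS hP hd) (by exact_mod_cast h)
  · exact le_trans (cr_le_U3 m hP hd hx) (by exact_mod_cast h)
  · exact le_trans (cr_le_U4 m hQ hc hx) (by exact_mod_cast h)
  · exact le_trans (cr_le_U5 m hc hd hx) (by exact_mod_cast h)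

end Pool.Agent.Helper69.KC
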