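import Pool.Agent.Helper69.KC.B3c

/-!
The weighted inequality: the weighted number of odd pairs is at least one of the explicit values.
-/

set_option autoImplicit false

namespace Pool.Agent.Helper69.KC

theorem mem_FC {c x : Fin 20} (hc : c ∈ CE) (hx : x ∈ XE) : (c, x) ∈ FC := by
  unfold FC
  rw [Finset.mem_product, List.mem_toFinset, List.mem_toFinset]
  exact ⟨hc, hx⟩

theorem mem_FD {d x : Fin 20} (hd : d ∈ DE) (hx : x ∈ XE) : (d, x) ∈ FD := by
  unfold FD
  rw [Finset.mem_product, List.mem_toFinset, List.mem_toFinset]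
  exact ⟨hd, hx⟩

theorem ce_range : ∀ c ∈ CE, c.val ≤ 8 := by decide

theorem mem_XE18 : (18 : Fin 20) ∈ XE := by decide

theorem mem_XE19 : (19 : Fin 20) ∈ XE := by decide

/-- If `u ≠ v` modulo two, a third value differs from one of them. -/
theorem zmod_dich {a b : ZMod 2} (h : a ≠ b) (c d : ZMod 2) : a ≠ c ∨ b ≠ d ∨ c ≠ d := by
  revert a b c d; decide

/-- The case where the right four-cycle separates the ends of the cut on the left side. -/
theorem cutD (m : Fin 20 → ℕ) (k : Fin 20 → Fin 12 → ZMod 2) (b : Fin 12 → Fin 12 → ZMod 2)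
    (hb : ∀ u v, u ≠ v → b u v + b v u = 1) {d : Fin 20} (hmin : ∀ d' ∈ DE, m d ≤ m d')
    (h : kapD k 0 ≠ kapD k 1) :
    ∃ S ∈ Cuts, (S.map m).sum * m d ≤ Yw m (omega k b) := by
  obtain ⟨S, hS, h1⟩ := cuts_exists (kapD k) h
  obtain ⟨n1, n2⟩ := cuts_nodup S hS
  refine ⟨S, hS, cut_le_Yw m _ S n1 n2 (m d) (fun g hg => ?_)⟩
  obtain ⟨d', hd', ho⟩ := crossD hb (n2 g hg) (h1 g hg)
  exact ⟨d', (de_range d' hd').1, (de_range d' hd').2, ho, hmin d' hd'⟩

/-- If the left four-cycle separates `S` and `T`, then the sum over the pairs (left, right) is at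
least the value of some left pair. -/
theorem sepC (m : Fin 20 → ℕ) (hm : ∀ g, 1 ≤ m g) (hyp : Hyp m)
    (k : Fin 20 → Fin 12 → ZMod 2) (b : Fin 12 → Fin 12 → ZMod 2)
    (hb : ∀ u v, u ≠ v → b u v + b v u = 1) (h : kapC k 6 ≠ kapC k 7) :
    ∃ P ∈ LPairs, m P.1 * m P.2 ≤ Yw m (omega k b) := by
  obtain ⟨P, hP, d, hd, h1⟩ := hyp
  obtain ⟨h', h2, h3, h4, h5⟩ := path_pair' d hd (kapC k) h
  obtain ⟨c, hc, ho⟩ := crossC hb h2 h5
  refine ⟨P, hP, ?_⟩
  have hY : m c * m h' ≤ Yw m (omega k b) := by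
    rw [Yw_eq]
    apply wt_le_sum m k b _ ho
    unfold FY
    rw [Finset.mem_filter]
    exact ⟨Finset.mem_univ _, ce_range c hc, h2, h3⟩
  refine le_trans ?_ hY
  have h6 : m P.1 * m P.2 * m d ≤ m h' * m d * m c := by
    rcases h4 with h4 | h4
    · exact h1 _ h4 c hc
    · have := h1 _ h4 c hc
      rwa [Nat.mul_comm (m d)] at this
  have h7 : m P.1 * m P.2 * m d ≤ m c * m h' * m d := by
    calc _ ≤ _ := h6
      _ = _ := by ring
  exact Nat.le_of_mul_le_mul_right h7 (hm d)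

/-- The data of the main case from the parity identities. -/
theorem mainData_of (k : Fin 20 → Fin 12 → ZMod 2) (b : Fin 12 → Fin 12 → ZMod 2)
    (hb : ∀ u v, u ≠ v → b u v + b v u = 1) (hC : kapC k 6 ≠ kapC k 7)
    (hD : kapD k 0 ≠ kapD k 1) :
    MainData (omega k b) (kapD k) (fun v => (([0, 1, 4, 5] : List (Fin 20)).map (fun g => k g v)).sum)
      (fun v => (([0, 1, 6, 7] : List (Fin 20)).map (fun g => k g v)).sum)
      (fun v => (([2, 3, 4, 6] : List (Fin 20)).map (fun g => k g v)).sum)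
      (fun v => (([2, 3, 5, 7] : List (Fin 20)).map (fun g => k g v)).sum) := by
  have key : ∀ x y z w u v : ZMod 2, (u + (v + (x + (y + 0)))) + (u + (v + (z + (w + 0)))) =
      x + (y + (z + (w + 0))) := by decide
  have key2 : ∀ x y z w u v : ZMod 2, (u + (v + (x + (z + 0)))) + (u + (v + (y + (w + 0)))) =
      x + (y + (z + (w + 0))) := by decide
  have add4 : ∀ x y z w : ZMod 2, x + y + z + w = x + (y + (z + (w + 0))) := by decide
  refine ⟨?_, ?_, hD, ?_, ?_, ?_, ?_, ?_⟩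
  · intro v
    simp only [List.map_cons, List.map_nil, List.sum_cons, List.sum_nil]
    rw [key, key2]
  · have h6 : ∀ v, (([0, 1, 4, 5] : List (Fin 20)).map (fun g => k g v)).sum +
        (([0, 1, 6, 7] : List (Fin 20)).map (fun g => k g v)).sum = kapC k v := by
      intro v
      unfold kapC CE
      simp only [List.map_cons, List.map_nil, List.sum_cons, List.sum_nil]
      rw [key]
    rw [h6, h6]
    exact hC
  · intro g hg
    have := cyc_D k b hb g hg
    unfold kapD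
    rw [← this, add4]
    unfold DE
    simp only [List.map_cons, List.map_nil, List.sum_cons, List.sum_nil]
  · intro h h1 h2
    have := cyc_faces k b hb [0, 1, 4, 5] (by simp) h h1 h2
    rw [← this, add4]
    simp only [List.map_cons, List.map_nil, List.sum_cons, List.sum_nil]
  · intro h h1 h2
    have := cyc_faces k b hb [0, 1, 6, 7] (by simp) h h1 h2
    rw [← this, add4]
    simp only [List.map_cons, List.map_nil, List.sum_cons, List.sum_nil]
  · intro h h1 h2
    have := cyc_faces k b hb [2, 3, 4, 6] (by simp) h h1 h2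
    rw [← this, add4]
    simp only [List.map_cons, List.map_nil, List.sum_cons, List.sum_nil]
  · intro h h1 h2
    have := cyc_faces k b hb [2, 3, 5, 7] (by simp) h h1 h2
    rw [← this, add4]
    simp only [List.map_cons, List.map_nil, List.sum_cons, List.sum_nil]

theorem achieved_wsum_of (MC : MainCase) (m : Fin 20 → ℕ) (hm : ∀ g, 1 ≤ m g) (hyp : Hyp m)
    (k : Fin 20 → Fin 12 → ZMod 2) (b : Fin 12 → Fin 12 → ZMod 2)
    (hb : ∀ u v, u ≠ v → b u v + b v u = 1) : Achieved m (wsum m k b) := by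
  have hge := wsum_ge m k b
  -- the connecting edges and the two four-cycles
  have hXC : kapC k 0 ≠ kapC k 6 ∨ kapC k 1 ≠ kapC k 7 →
      ∃ x ∈ XE, ∃ c ∈ CE, m x * m c ≤ ∑ p ∈ FC, wt m k b p := by
    rintro (h | h)
    · obtain ⟨c, hc, ho⟩ := crossC (b := b) hb (h := 18) (by decide) h
      refine ⟨18, mem_XE18, c, hc, ?_⟩
      rw [Nat.mul_comm]
      exact wt_le_sum m k b (mem_FC hc mem_XE18) ho
    · obtain ⟨c, hc, ho⟩ := crossC (b := b) hb (h := 19) (by decide) h
      refine ⟨19, mem_XE19, c, hc, ?_⟩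
      rw [Nat.mul_comm]
      exact wt_le_sum m k b (mem_FC hc mem_XE19) ho
  have hXD : kapD k 0 ≠ kapD k 6 ∨ kapD k 1 ≠ kapD k 7 →
      ∃ x ∈ XE, ∃ d ∈ DE, m x * m d ≤ ∑ p ∈ FD, wt m k b p := by
    rintro (h | h)
    · obtain ⟨d, hd, ho⟩ := crossD' (b := b) hb (x := 18) (by decide) h
      refine ⟨18, mem_XE18, d, hd, ?_⟩
      rw [Nat.mul_comm]
      exact wt_le_sum m k b (mem_FD hd mem_XE18) ho
    · obtain ⟨d, hd, ho⟩ := crossD' (b := b) hb (x := 19) (by decide) h
      refine ⟨19, mem_XE19, d, hd, ?_⟩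
      rw [Nat.mul_comm]
      exact wt_le_sum m k b (mem_FD hd mem_XE19) ho
  have hLP : kapC k 0 = kapC k 1 →
      ∃ P ∈ LPairs, m P.1 * m P.2 ≤ ∑ p ∈ LPairs.toFinset, wt m k b p := by
    intro h
    obtain ⟨P, hP, ho⟩ := oddL (b := b) hb h
    exact ⟨P, hP, wt_le_sum m k b (List.mem_toFinset.mpr hP) ho⟩
  have hRP : kapD k 6 = kapD k 7 →
      ∃ Q ∈ RPairs, m Q.1 * m Q.2 ≤ ∑ p ∈ RPairs.toFinset, wt m k b p := by
    intro h
    obtain ⟨Q, hQ, ho⟩ := oddR (b := b) hb h
    exact ⟨Q, hQ, wt_le_sum m k b (List.mem_toFinset.mpr hQ) ho⟩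
  obtain ⟨d0, hd0, hmin⟩ := exists_min_DE m
  have hcutD : kapD k 0 ≠ kapD k 1 →
      ∃ S ∈ Cuts, (S.map m).sum * m d0 ≤ Yw m (omega k b) := cutD m k b hb hmin
  have hsepC : kapC k 6 ≠ kapC k 7 →
      ∃ P ∈ LPairs, m P.1 * m P.2 ≤ Yw m (omega k b) := sepC m hm hyp k b hb
  generalize hWL : ∑ p ∈ LPairs.toFinset, wt m k b p = WL at *
  generalize hWR : ∑ p ∈ RPairs.toFinset, wt m k b p = WR at *
  generalize hWC : ∑ p ∈ FC, wt m k b p = WC at *
  generalize hWD : ∑ p ∈ FD, wt m k b p = WD at *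
  by_cases hC : kapC k 0 = kapC k 1
  · obtain ⟨P, hP, hP1⟩ := hLP hC
    by_cases hD : kapD k 6 = kapD k 7
    · obtain ⟨Q, hQ, hQ1⟩ := hRP hD
      exact Or.inl ⟨P, hP, Q, hQ, by omega⟩
    · by_cases hX : kapD k 0 ≠ kapD k 6 ∨ kapD k 1 ≠ kapD k 7
      · obtain ⟨x, hx, d, hd, h1⟩ := hXD hX
        exact Or.inr (Or.inr (Or.inl ⟨P, hP, d, hd, x, hx, by omega⟩))
      · push Not at hX
        obtain ⟨S, hS, hS1⟩ := hcutD (by rw [hX.1, hX.2]; exact hD)
        exact Or.inr (Or.inl ⟨S, hS, P, hP, d0, hd0, by omega⟩)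
  · by_cases hXc : kapC k 0 ≠ kapC k 6 ∨ kapC k 1 ≠ kapC k 7
    · obtain ⟨x, hx, c, hc, hc1⟩ := hXC hXc
      by_cases hD : kapD k 6 = kapD k 7
      · obtain ⟨Q, hQ, hQ1⟩ := hRP hD
        exact Or.inr (Or.inr (Or.inr (Or.inl ⟨Q, hQ, c, hc, x, hx, by omega⟩)))
      · by_cases hX : kapD k 0 ≠ kapD k 6 ∨ kapD k 1 ≠ kapD k 7
        · obtain ⟨y, hy, d, hd, hd1⟩ := hXD hX
          rcases le_total (m x) (m y) with hxy | hxy
          · have := Nat.mul_le_mul_right (m d) hxy
            exact Or.inr (Or.inr (Or.inr (Or.inr ⟨x, hx, c, hc, d, hd, by omega⟩)))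
          · have := Nat.mul_le_mul_right (m c) hxy
            exact Or.inr (Or.inr (Or.inr (Or.inr ⟨y, hy, c, hc, d, hd, by omega⟩)))
        · push Not at hX
          obtain ⟨S, hS, hS1⟩ := hcutD (by rw [hX.1, hX.2]; exact hD)
          rcases le_total (m x) (S.map m).sum with hxs | hxs
          · have := Nat.mul_le_mul_right (m d0) hxs
            exact Or.inr (Or.inr (Or.inr (Or.inr ⟨x, hx, c, hc, d0, hd0, by omega⟩)))
          · obtain ⟨g, hg, hgc⟩ := cut_pair S hS c hc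
            have h1 : m g ≤ (S.map m).sum :=
              List.single_le_sum (fun _ _ => Nat.zero_le _) _ (List.mem_map_of_mem hg)
            have h2 : m g * m c ≤ m x * m c := Nat.mul_le_mul_right _ (h1.trans hxs)
            rcases hgc with hgc | hgc
            · exact Or.inr (Or.inl ⟨S, hS, _, hgc, d0, hd0, by simp only; omega⟩)
            · refine Or.inr (Or.inl ⟨S, hS, _, hgc, d0, hd0, ?_⟩)
              simp only
              rw [Nat.mul_comm (m c)]
              omega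
    · push Not at hXc
      have hC67 : kapC k 6 ≠ kapC k 7 := by rw [← hXc.1, ← hXc.2]; exact hC
      by_cases hD : kapD k 6 = kapD k 7
      · obtain ⟨Q, hQ, hQ1⟩ := hRP hD
        obtain ⟨P, hP, hP1⟩ := hsepC hC67
        exact Or.inl ⟨P, hP, Q, hQ, by omega⟩
      · by_cases hX : kapD k 0 ≠ kapD k 6 ∨ kapD k 1 ≠ kapD k 7
        · obtain ⟨x, hx, d, hd, h1⟩ := hXD hX
          obtain ⟨P, hP, hP1⟩ := hsepC hC67
          exact Or.inr (Or.inr (Or.inl ⟨P, hP, d, hd, x, hx, by omega⟩))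
        · push Not at hX
          have hD01 : kapD k 0 ≠ kapD k 1 := by rw [hX.1, hX.2]; exact hD
          refine Achieved.mono (main_case MC m hm hyp _ _ _ _ _ _
            (mainData_of k b hb hC67 hD01)) ?_
          omega

end Pool.Agent.Helper69.KC
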