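import Pool.Agent.Helper69.KC.A3
import Pool.Agent.Helper69.KC.B3d
import Pool.Agent.Helper80.KC.B2
import Pool.Agent.Helper31.KC.B4

/-!
Assembly of the disproof of MP_ec852d_co.
-/

set_option autoImplicit false

namespace Pool.Agent.Helper69.KC

open MGraph

theorem not_critical (MC : MainCase) (m : Fin 20 → ℕ) (hm : ∀ g, 1 ≤ m g) (hyp : Hyp m)
    (i : Fin (m 17)) : ¬ (G0.multiply m).CrossingCritical ⟨17, i⟩ := by
  have key : ∀ (k : Fin 20 → Fin 12 → ZMod 2) (b : Fin 12 → Fin 12 → ZMod 2),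
      (∀ u v, u ≠ v → b u v + b v u = 1) → (G0.multiply m).cr ≤ (wsum m k b : ℕ∞) :=
    fun k b hb => cr_le_of_achieved m _ (achieved_wsum_of MC m hm hyp k b hb)
  have hfin : (G0.multiply m).cr ≠ ⊤ := by
    have := cr_le_of_achieved m _
      (Or.inl ⟨(0, 2), by simp [LPairs], (9, 11), by simp [RPairs], le_rfl⟩)
    exact ne_top_of_le_ne_top (ENat.natCast_ne_top _) this
  obtain ⟨N, hN⟩ := ENat.ne_top_iff_exists.mp hfin
  intro hlt
  have hle := lower_of_parity m hm i N (fun k b hb => by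
    have := key k b hb
    rw [← hN] at this
    exact_mod_cast this)
  rw [hN] at hle
  exact absurd hlt (not_lt.mpr hle)

/-- The main statement, from the main case. -/
theorem main_of (MC : MainCase) : ∃ (G : MGraph (Fin 12) (Fin 20)) (e f : Fin 20),
    e ≠ f ∧ G.KuratowskiEdge e ∧ G.KuratowskiEdge f ∧
    ∀ m : Fin 20 → ℕ, (∀ g, 1 ≤ m g) → ∀ (i : Fin (m e)) (j : Fin (m f)),
      ¬ ((G.multiply m).CrossingCritical ⟨e, i⟩ ∧ (G.multiply m).CrossingCritical ⟨f, j⟩) := by
  refine ⟨G0, 17, 8, by decide, kuratowski_17, kuratowski_8, ?_⟩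
  intro m hm i j ⟨h1, h2⟩
  rcases hyp_or m with h | h
  · exact not_critical MC m hm h i h1
  · have h3 := not_critical MC (m ∘ sw) (fun g => hm _) h j
    apply h3
    unfold CrossingCritical at h2 ⊢
    rw [cr_sw, cr_sw_delete]
    exact h2

end Pool.Agent.Helper69.KC
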