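import Pool.Agent.Helper69.KC.Base

/-! Identities over `ZMod 2` (packet B3a of MP_ec852d_co; proofs by helper27, written without
an abbreviation). -/

set_option autoImplicit false
set_option maxHeartbeats 4000000

namespace Pool.Agent.Helper69.KC

theorem bflip {b : Fin 12 → Fin 12 → ZMod 2} (hb : ∀ u v, u ≠ v → b u v + b v u = 1)
    (u v : Fin 12) (h : v < u) : b u v = 1 + b v u := by
  have h1 := hb u v (ne_of_gt h)
  have : b v u + b v u = 0 := CharTwo.add_self_eq_zero _
  linear_combination h1 - this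

theorem eq_of_add_zero {x y : ZMod 2} (h : x + y = 0) : x = y := by
  have : y + y = 0 := CharTwo.add_self_eq_zero _
  linear_combination h - this

theorem odd_L (k : Fin 20 → Fin 12 → ZMod 2) (b : Fin 12 → Fin 12 → ZMod 2)
    (hb : ∀ u v, u ≠ v → b u v + b v u = 1) :
    (LPairs.map (fun P => omega k b P.1 P.2)).sum =
      1 + (CE.map (fun g => k g 0)).sum + (CE.map (fun g => k g 1)).sum := by
  (
  apply eq_of_add_zero
  simp only [LPairs, RPairs, CE, DE, omega, src, tgt, List.map_cons, List.map_nil, List.sum_cons,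
    List.sum_nil, Fin.mk_one, Fin.zero_eta, Fin.reduceFinMk, Fin.isValue, Matrix.cons_val]
  try simp (discharger := decide) only [bflip hb]
  ring_nf
  try reduce_mod_char)

theorem odd_R (k : Fin 20 → Fin 12 → ZMod 2) (b : Fin 12 → Fin 12 → ZMod 2)
    (hb : ∀ u v, u ≠ v → b u v + b v u = 1) :
    (RPairs.map (fun P => omega k b P.1 P.2)).sum =
      1 + (DE.map (fun g => k g 6)).sum + (DE.map (fun g => k g 7)).sum := by
  (
  apply eq_of_add_zero
  simp only [LPairs, RPairs, CE, DE, omega, src, tgt, List.map_cons, List.map_nil, List.sum_cons,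
    List.sum_nil, Fin.mk_one, Fin.zero_eta, Fin.reduceFinMk, Fin.isValue, Matrix.cons_val]
  try simp (discharger := decide) only [bflip hb]
  ring_nf
  try reduce_mod_char)

theorem cyc_C (k : Fin 20 → Fin 12 → ZMod 2) (b : Fin 12 → Fin 12 → ZMod 2)
    (hb : ∀ u v, u ≠ v → b u v + b v u = 1) (h : Fin 20) (hh : 9 ≤ h.val) :
    (CE.map (fun g => omega k b g h)).sum =
      (CE.map (fun g => k g (src h))).sum + (CE.map (fun g => k g (tgt h))).sum := by
  fin_cases h <;> first | (exfalso; revert hh; decide) | (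
  apply eq_of_add_zero
  simp only [LPairs, RPairs, CE, DE, omega, src, tgt, List.map_cons, List.map_nil, List.sum_cons,
    List.sum_nil, Fin.mk_one, Fin.zero_eta, Fin.reduceFinMk, Fin.isValue, Matrix.cons_val]
  try simp (discharger := decide) only [bflip hb]
  ring_nf
  try reduce_mod_char)

theorem cyc_D (k : Fin 20 → Fin 12 → ZMod 2) (b : Fin 12 → Fin 12 → ZMod 2)
    (hb : ∀ u v, u ≠ v → b u v + b v u = 1) (g : Fin 20) (hg : g.val ≤ 8) :
    (DE.map (fun d => omega k b g d)).sum =
      (DE.map (fun d => k d (src g))).sum + (DE.map (fun d => k d (tgt g))).sum := by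
  fin_cases g <;> first | (exfalso; revert hg; decide) | (
  apply eq_of_add_zero
  simp only [LPairs, RPairs, CE, DE, omega, src, tgt, List.map_cons, List.map_nil, List.sum_cons,
    List.sum_nil, Fin.mk_one, Fin.zero_eta, Fin.reduceFinMk, Fin.isValue, Matrix.cons_val]
  try simp (discharger := decide) only [bflip hb]
  ring_nf
  try reduce_mod_char)

theorem cyc_D' (k : Fin 20 → Fin 12 → ZMod 2) (b : Fin 12 → Fin 12 → ZMod 2)
    (hb : ∀ u v, u ≠ v → b u v + b v u = 1) (x : Fin 20) (hx : 18 ≤ x.val) :
    (DE.map (fun d => omega k b d x)).sum =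
      (DE.map (fun d => k d (src x))).sum + (DE.map (fun d => k d (tgt x))).sum := by
  fin_cases x <;> first | (exfalso; revert hx; decide) | (
  apply eq_of_add_zero
  simp only [LPairs, RPairs, CE, DE, omega, src, tgt, List.map_cons, List.map_nil, List.sum_cons,
    List.sum_nil, Fin.mk_one, Fin.zero_eta, Fin.reduceFinMk, Fin.isValue, Matrix.cons_val]
  try simp (discharger := decide) only [bflip hb]
  ring_nf
  try reduce_mod_char)

theorem cyc_faces (k : Fin 20 → Fin 12 → ZMod 2) (b : Fin 12 → Fin 12 → ZMod 2)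
    (hb : ∀ u v, u ≠ v → b u v + b v u = 1) (Z : List (Fin 20))
    (hZ : Z ∈ ([[0, 1, 4, 5], [0, 1, 6, 7], [2, 3, 4, 6], [2, 3, 5, 7]] : List (List (Fin 20))))
    (h : Fin 20) (h9 : 9 ≤ h.val) (h16 : h.val ≤ 16) :
    (Z.map (fun g => omega k b g h)).sum =
      (Z.map (fun g => k g (src h))).sum + (Z.map (fun g => k g (tgt h))).sum := by
  simp only [List.mem_cons, List.not_mem_nil, or_false] at hZ
  rcases hZ with rfl | rfl | rfl | rfl <;> fin_cases h <;>
    first | (exfalso; revert h9; decide) | (exfalso; revert h16; decide) | (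
  apply eq_of_add_zero
  simp only [LPairs, RPairs, CE, DE, omega, src, tgt, List.map_cons, List.map_nil, List.sum_cons,
    List.sum_nil, Fin.mk_one, Fin.zero_eta, Fin.reduceFinMk, Fin.isValue, Matrix.cons_val]
  try simp (discharger := decide) only [bflip hb]
  ring_nf
  try reduce_mod_char)

end Pool.Agent.Helper69.KC
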