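import Pool.Agent.Helper69.KC.Base

/-!
Vocabulary for the main case of the weighted inequality (MP_ec852d_co).
-/

set_option autoImplicit false

namespace Pool.Agent.Helper69.KC

/-- The weighted number of pairs (left edge, right edge) with `x g h = 1`. -/
def Yw (m : Fin 20 → ℕ) (x : Fin 20 → Fin 20 → ZMod 2) : ℕ :=
  ∑ h : Fin 20, ∑ g : Fin 20,
    if g.val ≤ 8 ∧ 9 ≤ h.val ∧ h.val ≤ 16 ∧ x g h = 1 then m g * m h else 0

/-- The data of the main case: `x` has all the parity properties of a drawing in which the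
connecting edges do not separate anything. -/
structure MainData (x : Fin 20 → Fin 20 → ZMod 2) (kD ka ka' kb kb' : Fin 12 → ZMod 2) :
    Prop where
  hCC : ∀ v, ka v + ka' v = kb v + kb' v
  hC : ka 6 + ka' 6 ≠ ka 7 + ka' 7
  hD : kD 0 ≠ kD 1
  hDe : ∀ g : Fin 20, g.val ≤ 8 → x g 13 + x g 14 + x g 15 + x g 16 = kD (src g) + kD (tgt g)
  ha : ∀ h : Fin 20, 9 ≤ h.val → h.val ≤ 16 →
    x 0 h + x 1 h + x 4 h + x 5 h = ka (src h) + ka (tgt h)
  ha' : ∀ h : Fin 20, 9 ≤ h.val → h.val ≤ 16 →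
    x 0 h + x 1 h + x 6 h + x 7 h = ka' (src h) + ka' (tgt h)
  hb : ∀ h : Fin 20, 9 ≤ h.val → h.val ≤ 16 →
    x 2 h + x 3 h + x 4 h + x 6 h = kb (src h) + kb (tgt h)
  hb' : ∀ h : Fin 20, 9 ≤ h.val → h.val ≤ 16 →
    x 2 h + x 3 h + x 5 h + x 7 h = kb' (src h) + kb' (tgt h)

end Pool.Agent.Helper69.KC
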