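import Pool.Agent.Helper69.KC.B3a
import Pool.Agent.Helper69.KC.Base2

/-!
Splitting the weighted number of odd pairs and the first consequences of the parity identities.
-/

set_option autoImplicit false

namespace Pool.Agent.Helper69.KC

section Split

variable (m : Fin 20 → ℕ) (k : Fin 20 → Fin 12 → ZMod 2) (b : Fin 12 → Fin 12 → ZMod 2)

/-- The weight of an odd pair. -/
def wt (p : Fin 20 × Fin 20) : ℕ := if omega k b p.1 p.2 = 1 then m p.1 * m p.2 else 0

/-- Pairs (left edge, right edge). -/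
def FY : Finset (Fin 20 × Fin 20) :=
  Finset.univ.filter (fun p => p.1.val ≤ 8 ∧ 9 ≤ p.2.val ∧ p.2.val ≤ 16)

/-- Pairs (edge of the left four-cycle, connecting edge). -/
def FC : Finset (Fin 20 × Fin 20) := CE.toFinset ×ˢ XE.toFinset

/-- Pairs (edge of the right four-cycle, connecting edge). -/
def FD : Finset (Fin 20 × Fin 20) := DE.toFinset ×ˢ XE.toFinset

/-- All pairs that count. -/
def FA : Finset (Fin 20 × Fin 20) :=
  Finset.univ.filter (fun p => p.1 < p.2 ∧ Indep p.1 p.2 ∧ p.1 ≠ 17 ∧ p.2 ≠ 17)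

theorem wsum_eq : wsum m k b = ∑ p ∈ FA, wt m k b p := by
  unfold wsum FA wt
  rw [Finset.sum_filter]
  rw [← Fintype.sum_prod_type' (f := fun g h : Fin 20 =>
    if g < h ∧ Indep g h ∧ g ≠ 17 ∧ h ≠ 17 ∧ omega k b g h = 1 then m g * m h else 0)]
  apply Finset.sum_congr rfl
  intro p _
  by_cases h1 : p.1 < p.2 <;> by_cases h2 : Indep p.1 p.2 <;> by_cases h3 : p.1 = 17 <;>
    by_cases h4 : p.2 = 17 <;> by_cases h5 : omega k b p.1 p.2 = 1 <;> simp [h1, h2, h3, h4, h5]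

theorem Yw_eq : Yw m (omega k b) = ∑ p ∈ FY, wt m k b p := by
  unfold Yw FY wt
  rw [Finset.sum_filter, Finset.sum_comm]
  rw [← Fintype.sum_prod_type' (f := fun g h : Fin 20 =>
    if g.val ≤ 8 ∧ 9 ≤ h.val ∧ h.val ≤ 16 ∧ omega k b g h = 1 then m g * m h else 0)]
  apply Finset.sum_congr rfl
  intro p _
  by_cases h1 : p.1.val ≤ 8 <;> by_cases h2 : 9 ≤ p.2.val <;> by_cases h3 : p.2.val ≤ 16 <;>
    by_cases h5 : omega k b p.1 p.2 = 1 <;> simp [h1, h2, h3, h5]

theorem split_disj : Disjoint LPairs.toFinset RPairs.toFinset ∧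
    Disjoint (LPairs.toFinset ∪ RPairs.toFinset) FY ∧
    Disjoint (LPairs.toFinset ∪ RPairs.toFinset ∪ FY) FC ∧
    Disjoint (LPairs.toFinset ∪ RPairs.toFinset ∪ FY ∪ FC) FD ∧
    LPairs.toFinset ∪ RPairs.toFinset ∪ FY ∪ FC ∪ FD ⊆ FA := by
  decide +kernel

theorem wsum_ge : ∑ p ∈ LPairs.toFinset, wt m k b p + ∑ p ∈ RPairs.toFinset, wt m k b p +
    Yw m (omega k b) + ∑ p ∈ FC, wt m k b p + ∑ p ∈ FD, wt m k b p ≤ wsum m k b := by
  obtain ⟨d1, d2, d3, d4, s⟩ := split_disj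
  rw [wsum_eq, Yw_eq, ← Finset.sum_union d1, ← Finset.sum_union d2, ← Finset.sum_union d3,
    ← Finset.sum_union d4]
  exact Finset.sum_le_sum_of_subset s

theorem wt_le_sum {F : Finset (Fin 20 × Fin 20)} {g h : Fin 20} (hp : (g, h) ∈ F)
    (ho : omega k b g h = 1) : m g * m h ≤ ∑ p ∈ F, wt m k b p := by
  have := Finset.single_le_sum (f := wt m k b) (fun i _ => Nat.zero_le _) hp
  unfold wt at this ⊢
  simpa [ho] using this

theorem zmod_one {x : ZMod 2} (h : x ≠ 0) : x = 1 := by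
  revert x; decide

theorem exists_odd {α : Type} (l : List α) (f : α → ZMod 2) (h : (l.map f).sum ≠ 0) :
    ∃ a ∈ l, f a = 1 := by
  by_contra hc
  push Not at hc
  apply h
  apply List.sum_eq_zero
  intro x hx
  obtain ⟨a, ha, rfl⟩ := List.mem_map.mp hx
  by_contra h0
  exact hc a ha (zmod_one h0)

/-- The parity of the position of `v` with respect to the left four-cycle. -/
def kapC (v : Fin 12) : ZMod 2 := (CE.map (fun g => k g v)).sum

/-- The parity of the position of `v` with respect to the right four-cycle. -/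
def kapD (v : Fin 12) : ZMod 2 := (DE.map (fun g => k g v)).sum

theorem add_self2 (x : ZMod 2) : x + x = 0 := by revert x; decide

theorem add_ne {x y : ZMod 2} (h : x ≠ y) : x + y ≠ 0 := by
  revert x y; decide

variable {m k b}

theorem oddL (hb : ∀ u v, u ≠ v → b u v + b v u = 1) (h : kapC k 0 = kapC k 1) :
    ∃ P ∈ LPairs, omega k b P.1 P.2 = 1 := by
  apply exists_odd
  rw [odd_L k b hb]
  unfold kapC at h
  rw [h, add_assoc, add_self2]
  decide

theorem oddR (hb : ∀ u v, u ≠ v → b u v + b v u = 1) (h : kapD k 6 = kapD k 7) :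
    ∃ P ∈ RPairs, omega k b P.1 P.2 = 1 := by
  apply exists_odd
  rw [odd_R k b hb]
  unfold kapD at h
  rw [h, add_assoc, add_self2]
  decide

theorem crossC (hb : ∀ u v, u ≠ v → b u v + b v u = 1) {h : Fin 20} (hh : 9 ≤ h.val)
    (hne : kapC k (src h) ≠ kapC k (tgt h)) : ∃ c ∈ CE, omega k b c h = 1 := by
  apply exists_odd
  rw [cyc_C k b hb h hh]
  exact add_ne hne

theorem crossD (hb : ∀ u v, u ≠ v → b u v + b v u = 1) {g : Fin 20} (hg : g.val ≤ 8)
    (hne : kapD k (src g) ≠ kapD k (tgt g)) : ∃ d ∈ DE, omega k b g d = 1 := by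
  apply exists_odd
  rw [cyc_D k b hb g hg]
  exact add_ne hne

theorem crossD' (hb : ∀ u v, u ≠ v → b u v + b v u = 1) {x : Fin 20} (hx : 18 ≤ x.val)
    (hne : kapD k (src x) ≠ kapD k (tgt x)) : ∃ d ∈ DE, omega k b d x = 1 := by
  apply exists_odd
  rw [cyc_D' k b hb x hx]
  exact add_ne hne

end Split

theorem cuts_mem : ∀ f : Fin 6 → ZMod 2, f 0 ≠ f 1 → ∃ S ∈ Cuts, ∀ g ∈ S,
    ∃ u v : Fin 6, (src g).val = u.val ∧ (tgt g).val = v.val ∧ f u ≠ f v := by
  decide +kernel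

theorem cuts_exists (f : Fin 12 → ZMod 2) (h : f 0 ≠ f 1) :
    ∃ S ∈ Cuts, ∀ g ∈ S, f (src g) ≠ f (tgt g) := by
  obtain ⟨S, hS, h1⟩ := cuts_mem (fun i => f (Fin.castLE (by omega) i)) h
  refine ⟨S, hS, fun g hg => ?_⟩
  obtain ⟨u, v, e1, e2, hne⟩ := h1 g hg
  have a1 : src g = Fin.castLE (by omega) u := Fin.ext e1
  have a2 : tgt g = Fin.castLE (by omega) v := Fin.ext e2
  rw [a1, a2]
  exact hne

theorem cuts_nodup : ∀ S ∈ Cuts, S.Nodup ∧ ∀ g ∈ S, g.val ≤ 8 := by decide +kernel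

theorem de_range : ∀ d ∈ DE, 9 ≤ d.val ∧ d.val ≤ 16 := by decide +kernel

/-- Every left cut meets, for every edge `c` of the left four-cycle, an edge forming a pair
with `c`. -/
theorem cut_pair : ∀ S ∈ Cuts, ∀ c ∈ CE, ∃ g ∈ S, (g, c) ∈ LPairs ∨ (c, g) ∈ LPairs := by
  decide +kernel

/-- A function that differs at `S` and `T` differs at the ends of an edge forming a pair
with `d`. -/
theorem path_pair' (d : Fin 20) (hd : d ∈ DE) (f : Fin 12 → ZMod 2) (hf : f 6 ≠ f 7) :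
    ∃ h : Fin 20, 9 ≤ h.val ∧ h.val ≤ 16 ∧ ((h, d) ∈ RPairs ∨ (d, h) ∈ RPairs) ∧
      f (src h) ≠ f (tgt h) := by
  by_contra hcon
  have hc : ∀ h : Fin 20, 9 ≤ h.val → h.val ≤ 16 → ((h, d) ∈ RPairs ∨ (d, h) ∈ RPairs) →
      f (src h) = f (tgt h) := by
    intro h h1 h2 h3
    by_contra h4
    exact hcon ⟨h, h1, h2, h3, h4⟩
  apply hf
  have hD : d = 13 ∨ d = 14 ∨ d = 15 ∨ d = 16 := by simpa [DE] using hd
  rcases hD with rfl | rfl | rfl | rfl
  · have a : f 6 = f 11 := hc 10 (by decide) (by decide) (by decide)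
    have b : f 9 = f 11 := hc 16 (by decide) (by decide) (by decide)
    have c : f 7 = f 9 := hc 12 (by decide) (by decide) (by decide)
    rw [a, c, b]
  · have a : f 6 = f 10 := hc 9 (by decide) (by decide) (by decide)
    have b : f 9 = f 10 := hc 15 (by decide) (by decide) (by decide)
    have c : f 7 = f 9 := hc 12 (by decide) (by decide) (by decide)
    rw [a, c, b]
  · have a : f 6 = f 11 := hc 10 (by decide) (by decide) (by decide)
    have b : f 8 = f 11 := hc 14 (by decide) (by decide) (by decide)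
    have c : f 7 = f 8 := hc 11 (by decide) (by decide) (by decide)
    rw [a, c, b]
  · have a : f 6 = f 10 := hc 9 (by decide) (by decide) (by decide)
    have b : f 8 = f 10 := hc 13 (by decide) (by decide) (by decide)
    have c : f 7 = f 8 := hc 11 (by decide) (by decide) (by decide)
    rw [a, c, b]

/-- One term of the sum defining `Yw`. -/
def yt (m : Fin 20 → ℕ) (x : Fin 20 → Fin 20 → ZMod 2) (g h : Fin 20) : ℕ :=
  if g.val ≤ 8 ∧ 9 ≤ h.val ∧ h.val ≤ 16 ∧ x g h = 1 then m g * m h else 0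

theorem Yw_yt (m : Fin 20 → ℕ) (x : Fin 20 → Fin 20 → ZMod 2) :
    Yw m x = ∑ g : Fin 20, ∑ h : Fin 20, yt m x g h := by
  unfold Yw yt
  exact Finset.sum_comm

theorem yt_pos {m : Fin 20 → ℕ} {x : Fin 20 → Fin 20 → ZMod 2} {g h : Fin 20}
    (h1 : g.val ≤ 8) (h2 : 9 ≤ h.val) (h3 : h.val ≤ 16) (h4 : x g h = 1) :
    yt m x g h = m g * m h := by
  unfold yt
  exact if_pos ⟨h1, h2, h3, h4⟩

/-- The weight of a cut is crossed by the right four-cycle. -/
theorem cut_le_Yw (m : Fin 20 → ℕ) (x : Fin 20 → Fin 20 → ZMod 2) (S : List (Fin 20))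
    (hS : S.Nodup) (hS8 : ∀ g ∈ S, g.val ≤ 8) (H : ℕ)
    (hx : ∀ g ∈ S, ∃ d : Fin 20, 9 ≤ d.val ∧ d.val ≤ 16 ∧ x g d = 1 ∧ H ≤ m d) :
    (S.map m).sum * H ≤ Yw m x := by
  rw [Yw_yt]
  have h1 : ∀ g ∈ S.toFinset, m g * H ≤ ∑ h : Fin 20, yt m x g h := by
    intro g hg
    rw [List.mem_toFinset] at hg
    obtain ⟨d, d1, d2, d3, d4⟩ := hx g hg
    refine le_trans (Nat.mul_le_mul_left _ d4) ?_
    rw [← yt_pos (m := m) (hS8 g hg) d1 d2 d3]
    exact Finset.single_le_sum (f := yt m x g) (fun i _ => Nat.zero_le _) (Finset.mem_univ d)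
  have h2 := Finset.sum_le_sum h1
  rw [← Finset.sum_mul, List.sum_toFinset m hS] at h2
  exact le_trans h2 (Finset.sum_le_sum_of_subset (Finset.subset_univ _))

end Pool.Agent.Helper69.KC
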