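import Pool.Agent.Helper69.KC.B3b

/-!
Relabelling of the right side, and the weighted inequality from its main case.
-/

set_option autoImplicit false

namespace Pool.Agent.Helper69.KC

/-- The main case of the weighted inequality. -/
def MainCase : Prop :=
  ∀ (m : Fin 20 → ℕ), (∀ g, 1 ≤ m g) → Hyp m → (∀ d ∈ DE, m 13 ≤ m d) →
    ∀ (x : Fin 20 → Fin 20 → ZMod 2) (kD ka ka' kb kb' : Fin 12 → ZMod 2),
      MainData x kD ka ka' kb kb' → Achieved m (Yw m x)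

/-- The relabelling of the right edges that exchanges the vertices `B`, `B'` (if `i = 1` or
`i = 3`) and `A`, `A'` (if `i = 2` or `i = 3`). -/
def rhoE : Fin 4 → Fin 20 → Fin 20 :=
  ![![0, 1, 2, 3, 4, 5, 6, 7, 8, 9, 10, 11, 12, 13, 14, 15, 16, 17, 18, 19],
    ![0, 1, 2, 3, 4, 5, 6, 7, 8, 10, 9, 11, 12, 14, 13, 16, 15, 17, 18, 19],
    ![0, 1, 2, 3, 4, 5, 6, 7, 8, 9, 10, 12, 11, 15, 16, 13, 14, 17, 18, 19],
    ![0, 1, 2, 3, 4, 5, 6, 7, 8, 10, 9, 12, 11, 16, 15, 14, 13, 17, 18, 19]]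

/-- The corresponding relabelling of the vertices. -/
def rhoV : Fin 4 → Fin 12 → Fin 12 :=
  ![![0, 1, 2, 3, 4, 5, 6, 7, 8, 9, 10, 11],
    ![0, 1, 2, 3, 4, 5, 6, 7, 8, 9, 11, 10],
    ![0, 1, 2, 3, 4, 5, 6, 7, 9, 8, 10, 11],
    ![0, 1, 2, 3, 4, 5, 6, 7, 9, 8, 11, 10]]

theorem rhoE_inv : ∀ i : Fin 4, ∀ g : Fin 20, rhoE i (rhoE i g) = g := by decide +kernel

theorem rhoE_left : ∀ i : Fin 4, ∀ g : Fin 20, g.val ≤ 8 → rhoE i g = g := by decide +kernel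

theorem rhoE_range : ∀ i : Fin 4, ∀ g : Fin 20,
    (9 ≤ (rhoE i g).val ↔ 9 ≤ g.val) ∧ ((rhoE i g).val ≤ 16 ↔ g.val ≤ 16) := by decide +kernel

theorem rhoE_src : ∀ i : Fin 4, ∀ h : Fin 20, 9 ≤ h.val → h.val ≤ 16 →
    src (rhoE i h) = rhoV i (src h) ∧ tgt (rhoE i h) = rhoV i (tgt h) := by decide +kernel

theorem rhoV_fix : ∀ i : Fin 4, ∀ v : Fin 12, v.val ≤ 7 → rhoV i v = v := by decide +kernel

theorem rhoE_R : ∀ i : Fin 4, ∀ Q ∈ RPairs, (rhoE i Q.1, rhoE i Q.2) ∈ RPairs ∨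
    (rhoE i Q.2, rhoE i Q.1) ∈ RPairs := by decide +kernel

theorem rhoE_D : ∀ i : Fin 4, ∀ d ∈ DE, rhoE i d ∈ DE := by decide +kernel

theorem rhoE_LXE : ∀ i : Fin 4, (∀ P ∈ LPairs, rhoE i P.1 = P.1 ∧ rhoE i P.2 = P.2) ∧
    (∀ S ∈ Cuts, S.map (rhoE i) = S) ∧ (∀ c ∈ CE, rhoE i c = c) ∧ (∀ x ∈ XE, rhoE i x = x) := by
  decide +kernel

theorem rhoE_13 : ∀ d ∈ DE, ∃ i : Fin 4, rhoE i 13 = d := by decide +kernel

/-- The relabelling as a permutation. -/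
def rhoP (i : Fin 4) : Equiv.Perm (Fin 20) := ⟨rhoE i, rhoE i, rhoE_inv i, rhoE_inv i⟩

theorem hyp_rho {m : Fin 20 → ℕ} (i : Fin 4) (h : Hyp m) : Hyp (m ∘ rhoE i) := by
  obtain ⟨P, hP, d, hd, h1⟩ := h
  obtain ⟨l1, l2, l3, l4⟩ := rhoE_LXE i
  refine ⟨P, hP, rhoE i d, rhoE_D i d hd, fun Q hQ c hc => ?_⟩
  simp only [Function.comp_apply]
  rw [(l1 P hP).1, (l1 P hP).2, rhoE_inv, l3 c hc]
  rcases rhoE_R i Q hQ with h2 | h2
  · exact h1 _ h2 c hc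
  · have := h1 _ h2 c hc
    rwa [Nat.mul_comm (m (rhoE i Q.2))] at this

theorem achieved_rho {m : Fin 20 → ℕ} {N : ℕ} (i : Fin 4) (h : Achieved (m ∘ rhoE i) N) :
    Achieved m N := by
  obtain ⟨l1, l2, l3, l4⟩ := rhoE_LXE i
  rcases h with ⟨P, hP, Q, hQ, h⟩ | ⟨S, hS, P, hP, d, hd, h⟩ | ⟨P, hP, d, hd, x, hx, h⟩ |
    ⟨Q, hQ, c, hc, x, hx, h⟩ | ⟨x, hx, c, hc, d, hd, h⟩
  · left
    simp only [Function.comp_apply] at h
    rw [(l1 P hP).1, (l1 P hP).2] at h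
    rcases rhoE_R i Q hQ with h2 | h2
    · exact ⟨P, hP, _, h2, h⟩
    · refine ⟨P, hP, _, h2, ?_⟩
      rw [Nat.mul_comm (m (rhoE i Q.2))]
      exact h
  · right; left
    refine ⟨S, hS, P, hP, rhoE i d, rhoE_D i d hd, ?_⟩
    have e : (S.map (m ∘ rhoE i)).sum = (S.map m).sum := by
      rw [← List.map_map, l2 S hS]
    rw [e] at h
    simp only [Function.comp_apply] at h
    rw [(l1 P hP).1, (l1 P hP).2] at h
    exact h
  · right; right; left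
    simp only [Function.comp_apply] at h
    rw [(l1 P hP).1, (l1 P hP).2, l4 x hx] at h
    exact ⟨P, hP, rhoE i d, rhoE_D i d hd, x, hx, h⟩
  · right; right; right; left
    simp only [Function.comp_apply] at h
    rw [l3 c hc, l4 x hx] at h
    rcases rhoE_R i Q hQ with h2 | h2
    · exact ⟨_, h2, c, hc, x, hx, h⟩
    · refine ⟨_, h2, c, hc, x, hx, ?_⟩
      rw [Nat.mul_comm (m (rhoE i Q.2))]
      exact h
  · right; right; right; right
    simp only [Function.comp_apply] at h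
    rw [l3 c hc, l4 x hx] at h
    exact ⟨x, hx, c, hc, rhoE i d, rhoE_D i d hd, h⟩

theorem Yw_rho (m : Fin 20 → ℕ) (x : Fin 20 → Fin 20 → ZMod 2) (i : Fin 4) :
    Yw (m ∘ rhoE i) (fun g h => x g (rhoE i h)) = Yw m x := by
  rw [Yw_yt, Yw_yt]
  apply Finset.sum_congr rfl
  intro g _
  rw [← Equiv.sum_comp (rhoP i) (fun h => yt m x g h)]
  apply Finset.sum_congr rfl
  intro h _
  have e : (rhoP i) h = rhoE i h := rfl
  rw [e]
  unfold yt
  simp only [Function.comp_apply, (rhoE_range i h).1, (rhoE_range i h).2]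
  by_cases hg : g.val ≤ 8
  · rw [rhoE_left i g hg]
  · simp [hg]

theorem mainData_rho {x : Fin 20 → Fin 20 → ZMod 2} {kD ka ka' kb kb' : Fin 12 → ZMod 2}
    (h : MainData x kD ka ka' kb kb') (i : Fin 4) :
    MainData (fun g h => x g (rhoE i h)) kD (fun v => ka (rhoV i v)) (fun v => ka' (rhoV i v))
      (fun v => kb (rhoV i v)) (fun v => kb' (rhoV i v)) where
  hCC v := h.hCC _
  hC := by
    have := h.hC
    rw [rhoV_fix i 6 (by decide), rhoV_fix i 7 (by decide)]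
    exact this
  hD := h.hD
  hDe g hg := by
    have := h.hDe g hg
    rw [← this]
    revert i
    intro i
    fin_cases i
    · simp [rhoE]
    · simp only [rhoE]
      simp
      ring
    · simp only [rhoE]
      simp
      ring
    · simp only [rhoE]
      simp
      ring
  ha h' h1 h2 := by
    have := h.ha (rhoE i h') ((rhoE_range i h').1.mpr h1) ((rhoE_range i h').2.mpr h2)
    rw [(rhoE_src i h' h1 h2).1, (rhoE_src i h' h1 h2).2] at this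
    exact this
  ha' h' h1 h2 := by
    have := h.ha' (rhoE i h') ((rhoE_range i h').1.mpr h1) ((rhoE_range i h').2.mpr h2)
    rw [(rhoE_src i h' h1 h2).1, (rhoE_src i h' h1 h2).2] at this
    exact this
  hb h' h1 h2 := by
    have := h.hb (rhoE i h') ((rhoE_range i h').1.mpr h1) ((rhoE_range i h').2.mpr h2)
    rw [(rhoE_src i h' h1 h2).1, (rhoE_src i h' h1 h2).2] at this
    exact this
  hb' h' h1 h2 := by
    have := h.hb' (rhoE i h') ((rhoE_range i h').1.mpr h1) ((rhoE_range i h').2.mpr h2)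
    rw [(rhoE_src i h' h1 h2).1, (rhoE_src i h' h1 h2).2] at this
    exact this

theorem exists_min_DE (m : Fin 20 → ℕ) : ∃ d ∈ DE, ∀ d' ∈ DE, m d ≤ m d' := by
  obtain ⟨d, hd, h⟩ := Finset.exists_min_image DE.toFinset m ⟨13, by decide⟩
  exact ⟨d, List.mem_toFinset.mp hd, fun d' hd' => h d' (List.mem_toFinset.mpr hd')⟩

theorem main_case (MC : MainCase) (m : Fin 20 → ℕ) (hm : ∀ g, 1 ≤ m g) (hyp : Hyp m)
    (x : Fin 20 → Fin 20 → ZMod 2) (kD ka ka' kb kb' : Fin 12 → ZMod 2)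
    (hx : MainData x kD ka ka' kb kb') : Achieved m (Yw m x) := by
  obtain ⟨d, hd, hmin⟩ := exists_min_DE m
  obtain ⟨i, hi⟩ := rhoE_13 d hd
  have := MC (m ∘ rhoE i) (fun g => hm _) (hyp_rho i hyp) (fun d' hd' => by
    simp only [Function.comp_apply]
    rw [hi]
    exact hmin _ (rhoE_D i d' hd')) _ _ _ _ _ _ (mainData_rho hx i)
  rw [Yw_rho] at this
  exact achieved_rho i this

theorem Achieved.mono {m : Fin 20 → ℕ} {N N' : ℕ} (h : Achieved m N) (hN : N ≤ N') :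
    Achieved m N' := by
  rcases h with ⟨P, hP, Q, hQ, h⟩ | ⟨S, hS, P, hP, d, hd, h⟩ | ⟨P, hP, d, hd, x, hx, h⟩ |
    ⟨Q, hQ, c, hc, x, hx, h⟩ | ⟨x, hx, c, hc, d, hd, h⟩
  · exact Or.inl ⟨P, hP, Q, hQ, h.trans hN⟩
  · exact Or.inr (Or.inl ⟨S, hS, P, hP, d, hd, h.trans hN⟩)
  · exact Or.inr (Or.inr (Or.inl ⟨P, hP, d, hd, x, hx, h.trans hN⟩))
  · exact Or.inr (Or.inr (Or.inr (Or.inl ⟨Q, hQ, c, hc, x, hx, h.trans hN⟩)))
  · exact Or.inr (Or.inr (Or.inr (Or.inr ⟨x, hx, c, hc, d, hd, h.trans hN⟩)))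

end Pool.Agent.Helper69.KC
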