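import Pool.Agent.Helper69.KC.Defs

/-!
Common vocabulary for the packets of the disproof of MP_ec852d_co.
-/

set_option autoImplicit false

namespace Pool.Agent.Helper69.KC

/-- Two edges of `G0` without a common end. -/
def Indep (g h : Fin 20) : Prop :=
  src g ≠ src h ∧ src g ≠ tgt h ∧ tgt g ≠ src h ∧ tgt g ≠ tgt h

instance : DecidableRel Indep := fun g h => by unfold Indep; infer_instance

/-- Twice the signed area of the triangle `abc`. -/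
def det3 (a b c : ℤ × ℤ) : ℤ := (b.1 - a.1) * (c.2 - a.2) - (c.1 - a.1) * (b.2 - a.2)

/-- The mod 2 crossing form attached to the data `k`, `b`. -/
def omega (k : Fin 20 → Fin 12 → ZMod 2) (b : Fin 12 → Fin 12 → ZMod 2) (g h : Fin 20) : ZMod 2 :=
  k g (src h) + k g (tgt h) + k h (src g) + k h (tgt g) +
    (b (src h) (tgt g) + b (tgt h) (tgt g) + b (src h) (src g) + b (tgt h) (src g))

/-- The fourteen pairs of disjoint edges on the left side. -/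
def LPairs : List (Fin 20 × Fin 20) :=
  [(0, 2), (0, 3), (0, 5), (0, 7), (1, 2), (1, 3), (1, 4), (1, 6), (2, 6), (2, 7), (3, 4), (3, 5),
    (4, 7), (5, 6)]

/-- The fourteen pairs of disjoint edges on the right side. -/
def RPairs : List (Fin 20 × Fin 20) :=
  [(9, 11), (9, 12), (9, 14), (9, 16), (10, 11), (10, 12), (10, 13), (10, 15), (11, 15), (11, 16),
    (12, 13), (12, 14), (13, 16), (14, 15)]

/-- The eleven relevant `s`-`t` cuts on the left side (with the edge `aa'`). -/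
def Cuts : List (List (Fin 20)) :=
  [[0, 1], [1, 4, 6], [0, 5, 7], [4, 5, 6, 7], [1, 5, 6, 2, 8], [0, 4, 7, 2, 8], [1, 7, 4, 3, 8],
    [0, 6, 5, 3, 8], [2, 6, 7, 8], [3, 4, 5, 8], [2, 3]]

/-- The four-cycle on the left side. -/
def CE : List (Fin 20) := [4, 5, 6, 7]

/-- The four-cycle on the right side. -/
def DE : List (Fin 20) := [13, 14, 15, 16]

/-- The two connecting edges. -/
def XE : List (Fin 20) := [18, 19]

/-- One of the explicit values is at most `N`. -/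
def Achieved (m : Fin 20 → ℕ) (N : ℕ) : Prop :=
  (∃ P ∈ LPairs, ∃ Q ∈ RPairs, m P.1 * m P.2 + m Q.1 * m Q.2 ≤ N) ∨
  (∃ S ∈ Cuts, ∃ P ∈ LPairs, ∃ d ∈ DE, m P.1 * m P.2 + (S.map m).sum * m d ≤ N) ∨
  (∃ P ∈ LPairs, ∃ d ∈ DE, ∃ x ∈ XE, m P.1 * m P.2 + m x * m d ≤ N) ∨
  (∃ Q ∈ RPairs, ∃ c ∈ CE, ∃ x ∈ XE, m Q.1 * m Q.2 + m x * m c ≤ N) ∨
  (∃ x ∈ XE, ∃ c ∈ CE, ∃ d ∈ DE, m x * m c + m x * m d ≤ N)

/-- The weighted number of odd independent pairs (edge `17 = AA'` deleted). -/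
def wsum (m : Fin 20 → ℕ) (k : Fin 20 → Fin 12 → ZMod 2) (b : Fin 12 → Fin 12 → ZMod 2) : ℕ :=
  ∑ g : Fin 20, ∑ h : Fin 20,
    if g < h ∧ Indep g h ∧ g ≠ 17 ∧ h ≠ 17 ∧ omega k b g h = 1 then m g * m h else 0

/-- The dichotomy hypothesis `c₁ / h₁ ≤ c₂ / h₂`. -/
def Hyp (m : Fin 20 → ℕ) : Prop :=
  ∃ P ∈ LPairs, ∃ d ∈ DE, ∀ Q ∈ RPairs, ∀ c ∈ CE, m P.1 * m P.2 * m d ≤ m Q.1 * m Q.2 * m c

/-- Exchange of the two sides on edges. -/
def sw : Fin 20 → Fin 20 :=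
  ![9, 10, 11, 12, 13, 14, 15, 16, 17, 0, 1, 2, 3, 4, 5, 6, 7, 8, 18, 19]

end Pool.Agent.Helper69.KC
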