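import Pool.Agent.Helper69.KC.Base

/-!
A fast check that integer positions of the twelve vertices give a straight-line drawing of `G0`
with prescribed crossing pairs. The coordinates of the twelve points are the base 4096 digits
of two natural numbers.
-/

set_option autoImplicit false

namespace Pool.Agent.Helper69.KC

/-- The `v`-th digit in base 4096. -/
def dg (b v : ℕ) : ℕ := b / 4096 ^ v % 4096

/-- Orientation of three points with coordinates `(a, a')`, `(b, b')`, `(c, c')`: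
0 collinear, 1 or 2 otherwise. -/
def dsg (p q : ℕ) : ℕ := bif Nat.beq p q then 0 else bif Nat.ble p q then 1 else 2

/-- Orientation of the points with numbers `u`, `v`, `w`. -/
def ds (X Y : ℕ) (u v w : ℕ) : ℕ :=
  dsg (dg X u * dg Y v + dg X v * dg Y w + dg X w * dg Y u)
    (dg X v * dg Y u + dg X w * dg Y v + dg X u * dg Y w)

/-- Membership of a pair of numbers. -/
def memX (P : List (ℕ × ℕ)) (g h : ℕ) : Bool := P.any (fun p => Nat.beq p.1 g && Nat.beq p.2 h)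

/-- All (first end, second end, other vertex). -/
def EW : List (ℕ × ℕ × ℕ) := [
  (0, 4, 1), (0, 4, 2), (0, 4, 3), (0, 4, 5), (0, 4, 6), (0, 4, 7), (0, 4, 8), (0, 4, 9),
  (0, 4, 10), (0, 4, 11), (0, 5, 1), (0, 5, 2), (0, 5, 3), (0, 5, 4), (0, 5, 6), (0, 5, 7),
  (0, 5, 8), (0, 5, 9), (0, 5, 10), (0, 5, 11), (1, 2, 0), (1, 2, 3), (1, 2, 4), (1, 2, 5),
  (1, 2, 6), (1, 2, 7), (1, 2, 8), (1, 2, 9), (1, 2, 10), (1, 2, 11), (1, 3, 0), (1, 3, 2),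
  (1, 3, 4), (1, 3, 5), (1, 3, 6), (1, 3, 7), (1, 3, 8), (1, 3, 9), (1, 3, 10), (1, 3, 11),
  (2, 4, 0), (2, 4, 1), (2, 4, 3), (2, 4, 5), (2, 4, 6), (2, 4, 7), (2, 4, 8), (2, 4, 9),
  (2, 4, 10), (2, 4, 11), (2, 5, 0), (2, 5, 1), (2, 5, 3), (2, 5, 4), (2, 5, 6), (2, 5, 7),
  (2, 5, 8), (2, 5, 9), (2, 5, 10), (2, 5, 11), (3, 4, 0), (3, 4, 1), (3, 4, 2), (3, 4, 5),
  (3, 4, 6), (3, 4, 7), (3, 4, 8), (3, 4, 9), (3, 4, 10), (3, 4, 11), (3, 5, 0), (3, 5, 1),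
  (3, 5, 2), (3, 5, 4), (3, 5, 6), (3, 5, 7), (3, 5, 8), (3, 5, 9), (3, 5, 10), (3, 5, 11),
  (2, 3, 0), (2, 3, 1), (2, 3, 4), (2, 3, 5), (2, 3, 6), (2, 3, 7), (2, 3, 8), (2, 3, 9),
  (2, 3, 10), (2, 3, 11), (6, 10, 0), (6, 10, 1), (6, 10, 2), (6, 10, 3), (6, 10, 4),
  (6, 10, 5), (6, 10, 7), (6, 10, 8), (6, 10, 9), (6, 10, 11), (6, 11, 0), (6, 11, 1),
  (6, 11, 2), (6, 11, 3), (6, 11, 4), (6, 11, 5), (6, 11, 7), (6, 11, 8), (6, 11, 9),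
  (6, 11, 10), (7, 8, 0), (7, 8, 1), (7, 8, 2), (7, 8, 3), (7, 8, 4), (7, 8, 5), (7, 8, 6),
  (7, 8, 9), (7, 8, 10), (7, 8, 11), (7, 9, 0), (7, 9, 1), (7, 9, 2), (7, 9, 3), (7, 9, 4),
  (7, 9, 5), (7, 9, 6), (7, 9, 8), (7, 9, 10), (7, 9, 11), (8, 10, 0), (8, 10, 1), (8, 10, 2),
  (8, 10, 3), (8, 10, 4), (8, 10, 5), (8, 10, 6), (8, 10, 7), (8, 10, 9), (8, 10, 11),
  (8, 11, 0), (8, 11, 1), (8, 11, 2), (8, 11, 3), (8, 11, 4), (8, 11, 5), (8, 11, 6),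
  (8, 11, 7), (8, 11, 9), (8, 11, 10), (9, 10, 0), (9, 10, 1), (9, 10, 2), (9, 10, 3),
  (9, 10, 4), (9, 10, 5), (9, 10, 6), (9, 10, 7), (9, 10, 8), (9, 10, 11), (9, 11, 0),
  (9, 11, 1), (9, 11, 2), (9, 11, 3), (9, 11, 4), (9, 11, 5), (9, 11, 6), (9, 11, 7),
  (9, 11, 8), (9, 11, 10), (8, 9, 0), (8, 9, 1), (8, 9, 2), (8, 9, 3), (8, 9, 4), (8, 9, 5),
  (8, 9, 6), (8, 9, 7), (8, 9, 10), (8, 9, 11), (0, 6, 1), (0, 6, 2), (0, 6, 3), (0, 6, 4),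
  (0, 6, 5), (0, 6, 7), (0, 6, 8), (0, 6, 9), (0, 6, 10), (0, 6, 11), (1, 7, 0), (1, 7, 2),
  (1, 7, 3), (1, 7, 4), (1, 7, 5), (1, 7, 6), (1, 7, 8), (1, 7, 9), (1, 7, 10), (1, 7, 11)]

/-- All independent pairs of edges: numbers and ends. -/
def IPL : List (ℕ × ℕ × ℕ × ℕ × ℕ × ℕ) := [
  (0, 2, 0, 4, 1, 2), (0, 3, 0, 4, 1, 3), (0, 5, 0, 4, 2, 5), (0, 7, 0, 4, 3, 5),
  (0, 8, 0, 4, 2, 3), (0, 9, 0, 4, 6, 10), (0, 10, 0, 4, 6, 11), (0, 11, 0, 4, 7, 8),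
  (0, 12, 0, 4, 7, 9), (0, 13, 0, 4, 8, 10), (0, 14, 0, 4, 8, 11), (0, 15, 0, 4, 9, 10),
  (0, 16, 0, 4, 9, 11), (0, 17, 0, 4, 8, 9), (0, 19, 0, 4, 1, 7), (1, 2, 0, 5, 1, 2),
  (1, 3, 0, 5, 1, 3), (1, 4, 0, 5, 2, 4), (1, 6, 0, 5, 3, 4), (1, 8, 0, 5, 2, 3),
  (1, 9, 0, 5, 6, 10), (1, 10, 0, 5, 6, 11), (1, 11, 0, 5, 7, 8), (1, 12, 0, 5, 7, 9),
  (1, 13, 0, 5, 8, 10), (1, 14, 0, 5, 8, 11), (1, 15, 0, 5, 9, 10), (1, 16, 0, 5, 9, 11),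
  (1, 17, 0, 5, 8, 9), (1, 19, 0, 5, 1, 7), (2, 6, 1, 2, 3, 4), (2, 7, 1, 2, 3, 5),
  (2, 9, 1, 2, 6, 10), (2, 10, 1, 2, 6, 11), (2, 11, 1, 2, 7, 8), (2, 12, 1, 2, 7, 9),
  (2, 13, 1, 2, 8, 10), (2, 14, 1, 2, 8, 11), (2, 15, 1, 2, 9, 10), (2, 16, 1, 2, 9, 11),
  (2, 17, 1, 2, 8, 9), (2, 18, 1, 2, 0, 6), (3, 4, 1, 3, 2, 4), (3, 5, 1, 3, 2, 5),
  (3, 9, 1, 3, 6, 10), (3, 10, 1, 3, 6, 11), (3, 11, 1, 3, 7, 8), (3, 12, 1, 3, 7, 9),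
  (3, 13, 1, 3, 8, 10), (3, 14, 1, 3, 8, 11), (3, 15, 1, 3, 9, 10), (3, 16, 1, 3, 9, 11),
  (3, 17, 1, 3, 8, 9), (3, 18, 1, 3, 0, 6), (4, 7, 2, 4, 3, 5), (4, 9, 2, 4, 6, 10),
  (4, 10, 2, 4, 6, 11), (4, 11, 2, 4, 7, 8), (4, 12, 2, 4, 7, 9), (4, 13, 2, 4, 8, 10),
  (4, 14, 2, 4, 8, 11), (4, 15, 2, 4, 9, 10), (4, 16, 2, 4, 9, 11), (4, 17, 2, 4, 8, 9),
  (4, 18, 2, 4, 0, 6), (4, 19, 2, 4, 1, 7), (5, 6, 2, 5, 3, 4), (5, 9, 2, 5, 6, 10),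
  (5, 10, 2, 5, 6, 11), (5, 11, 2, 5, 7, 8), (5, 12, 2, 5, 7, 9), (5, 13, 2, 5, 8, 10),
  (5, 14, 2, 5, 8, 11), (5, 15, 2, 5, 9, 10), (5, 16, 2, 5, 9, 11), (5, 17, 2, 5, 8, 9),
  (5, 18, 2, 5, 0, 6), (5, 19, 2, 5, 1, 7), (6, 9, 3, 4, 6, 10), (6, 10, 3, 4, 6, 11),
  (6, 11, 3, 4, 7, 8), (6, 12, 3, 4, 7, 9), (6, 13, 3, 4, 8, 10), (6, 14, 3, 4, 8, 11),
  (6, 15, 3, 4, 9, 10), (6, 16, 3, 4, 9, 11), (6, 17, 3, 4, 8, 9), (6, 18, 3, 4, 0, 6),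
  (6, 19, 3, 4, 1, 7), (7, 9, 3, 5, 6, 10), (7, 10, 3, 5, 6, 11), (7, 11, 3, 5, 7, 8),
  (7, 12, 3, 5, 7, 9), (7, 13, 3, 5, 8, 10), (7, 14, 3, 5, 8, 11), (7, 15, 3, 5, 9, 10),
  (7, 16, 3, 5, 9, 11), (7, 17, 3, 5, 8, 9), (7, 18, 3, 5, 0, 6), (7, 19, 3, 5, 1, 7),
  (8, 9, 2, 3, 6, 10), (8, 10, 2, 3, 6, 11), (8, 11, 2, 3, 7, 8), (8, 12, 2, 3, 7, 9),
  (8, 13, 2, 3, 8, 10), (8, 14, 2, 3, 8, 11), (8, 15, 2, 3, 9, 10), (8, 16, 2, 3, 9, 11),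
  (8, 17, 2, 3, 8, 9), (8, 18, 2, 3, 0, 6), (8, 19, 2, 3, 1, 7), (9, 11, 6, 10, 7, 8),
  (9, 12, 6, 10, 7, 9), (9, 14, 6, 10, 8, 11), (9, 16, 6, 10, 9, 11), (9, 17, 6, 10, 8, 9),
  (9, 19, 6, 10, 1, 7), (10, 11, 6, 11, 7, 8), (10, 12, 6, 11, 7, 9), (10, 13, 6, 11, 8, 10),
  (10, 15, 6, 11, 9, 10), (10, 17, 6, 11, 8, 9), (10, 19, 6, 11, 1, 7), (11, 15, 7, 8, 9, 10),
  (11, 16, 7, 8, 9, 11), (11, 18, 7, 8, 0, 6), (12, 13, 7, 9, 8, 10), (12, 14, 7, 9, 8, 11),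
  (12, 18, 7, 9, 0, 6), (13, 16, 8, 10, 9, 11), (13, 18, 8, 10, 0, 6), (13, 19, 8, 10, 1, 7),
  (14, 15, 8, 11, 9, 10), (14, 18, 8, 11, 0, 6), (14, 19, 8, 11, 1, 7), (15, 18, 9, 10, 0, 6),
  (15, 19, 9, 10, 1, 7), (16, 18, 9, 11, 0, 6), (16, 19, 9, 11, 1, 7), (17, 18, 8, 9, 0, 6),
  (17, 19, 8, 9, 1, 7), (18, 19, 0, 6, 1, 7)]

/-- The check. -/
def chk (X Y : ℕ) (P : List (ℕ × ℕ)) : Bool :=
  EW.all (fun e => !(Nat.beq (ds X Y e.1 e.2.1 e.2.2) 0)) &&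
  IPL.all (fun q =>
    Nat.beq (ds X Y q.2.2.1 q.2.2.2.1 q.2.2.2.2.1) (ds X Y q.2.2.1 q.2.2.2.1 q.2.2.2.2.2) ||
    Nat.beq (ds X Y q.2.2.2.2.1 q.2.2.2.2.2 q.2.2.1) (ds X Y q.2.2.2.2.1 q.2.2.2.2.2 q.2.2.2.1) ||
    memX P q.1 q.2.1)

theorem ew_mem (g : Fin 20) (w : Fin 12) (h1 : w ≠ src g) (h2 : w ≠ tgt g) :
    ((src g).val, (tgt g).val, w.val) ∈ EW := by
  revert g w
  decide +kernel

theorem ipl_mem (g h : Fin 20) (hgh : g < h) (hi : Indep g h) :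
    (g.val, h.val, (src g).val, (tgt g).val, (src h).val, (tgt h).val) ∈ IPL := by
  revert g h
  decide +kernel

/-- The integer position coded by `X`, `Y`. -/
def posZ (X Y : ℕ) (i : Fin 12) : ℤ × ℤ := ((dg X i.val : ℤ), (dg Y i.val : ℤ))

theorem det3_posZ (X Y : ℕ) (u v w : Fin 12) :
    det3 (posZ X Y u) (posZ X Y v) (posZ X Y w) =
      ((dg X u * dg Y v + dg X v * dg Y w + dg X w * dg Y u : ℕ) : ℤ) -
      ((dg X v * dg Y u + dg X w * dg Y v + dg X u * dg Y w : ℕ) : ℤ) := by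
  simp only [det3, posZ]
  push_cast
  ring

theorem dsg_zero {p q : ℕ} (h : dsg p q ≠ 0) : p ≠ q := by
  intro e
  apply h
  subst e
  simp [dsg]

theorem dsg_one_two {p q : ℕ} (h : p ≠ q) :
    (p < q ∧ dsg p q = 1) ∨ (q < p ∧ dsg p q = 2) := by
  have hb : Nat.beq p q = false := by
    rw [← Bool.not_eq_true, Nat.beq_eq]
    exact h
  rcases lt_or_gt_of_ne h with h1 | h1
  · left
    refine ⟨h1, ?_⟩
    have : Nat.ble p q = true := Nat.ble_eq.mpr h1.le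
    simp [dsg, hb, this]
  · right
    refine ⟨h1, ?_⟩
    have : Nat.ble p q = false := by
      rw [← Bool.not_eq_true, Nat.ble_eq]
      omega
    simp [dsg, hb, this]

theorem det3_ne_of_ds {X Y : ℕ} {u v w : Fin 12} (h : ds X Y u v w ≠ 0) :
    det3 (posZ X Y u) (posZ X Y v) (posZ X Y w) ≠ 0 := by
  rw [det3_posZ]
  have := dsg_zero h
  intro h0
  apply this
  have h1 : ((dg X u * dg Y v + dg X v * dg Y w + dg X w * dg Y u : ℕ) : ℤ) =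
      ((dg X v * dg Y u + dg X w * dg Y v + dg X u * dg Y w : ℕ) : ℤ) := by linarith
  exact_mod_cast h1

theorem det3_mul_pos_of_ds {X Y : ℕ} {u v w z : Fin 12} (h : ds X Y u v w ≠ 0)
    (hz : ds X Y u v z ≠ 0) (he : ds X Y u v w = ds X Y u v z) :
    0 < det3 (posZ X Y u) (posZ X Y v) (posZ X Y w) *
      det3 (posZ X Y u) (posZ X Y v) (posZ X Y z) := by
  rw [det3_posZ, det3_posZ]
  have a := dsg_one_two (dsg_zero h)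
  have b := dsg_one_two (dsg_zero hz)
  unfold ds at he
  rcases a with ⟨a1, a2⟩ | ⟨a1, a2⟩ <;> rcases b with ⟨b1, b2⟩ | ⟨b1, b2⟩
  · apply mul_pos_of_neg_of_neg
    · have : ((dg X u * dg Y v + dg X v * dg Y w + dg X w * dg Y u : ℕ) : ℤ) <
        ((dg X v * dg Y u + dg X w * dg Y v + dg X u * dg Y w : ℕ) : ℤ) := by exact_mod_cast a1
      linarith
    · have : ((dg X u * dg Y v + dg X v * dg Y z + dg X z * dg Y u : ℕ) : ℤ) <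
        ((dg X v * dg Y u + dg X z * dg Y v + dg X u * dg Y z : ℕ) : ℤ) := by exact_mod_cast b1
      linarith
  · rw [a2, b2] at he; omega
  · rw [a2, b2] at he; omega
  · apply mul_pos
    · have : ((dg X v * dg Y u + dg X w * dg Y v + dg X u * dg Y w : ℕ) : ℤ) <
        ((dg X u * dg Y v + dg X v * dg Y w + dg X w * dg Y u : ℕ) : ℤ) := by exact_mod_cast a1
      linarith
    · have : ((dg X v * dg Y u + dg X z * dg Y v + dg X u * dg Y z : ℕ) : ℤ) <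
        ((dg X u * dg Y v + dg X v * dg Y z + dg X z * dg Y u : ℕ) : ℤ) := by exact_mod_cast b1
      linarith

/-- Numbers of the edges of a list of pairs. -/
def nums (P : List (Fin 20 × Fin 20)) : List (ℕ × ℕ) := P.map (fun p => (p.1.val, p.2.val))

theorem chk_spec {X Y : ℕ} {P : List (Fin 20 × Fin 20)} (h : chk X Y (nums P) = true) :
    (∀ g w, w ≠ src g → w ≠ tgt g →
      det3 (posZ X Y (src g)) (posZ X Y (tgt g)) (posZ X Y w) ≠ 0) ∧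
    (∀ g h, g < h → Indep g h → (g, h) ∈ P.toFinset ∨
      0 < det3 (posZ X Y (src g)) (posZ X Y (tgt g)) (posZ X Y (src h)) *
          det3 (posZ X Y (src g)) (posZ X Y (tgt g)) (posZ X Y (tgt h)) ∨
      0 < det3 (posZ X Y (src h)) (posZ X Y (tgt h)) (posZ X Y (src g)) *
          det3 (posZ X Y (src h)) (posZ X Y (tgt h)) (posZ X Y (tgt g))) := by
  unfold chk at h
  rw [Bool.and_eq_true, List.all_eq_true, List.all_eq_true] at h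
  obtain ⟨hE, hI⟩ := h
  have hE' : ∀ (g : Fin 20) (w : Fin 12), w ≠ src g → w ≠ tgt g →
      ds X Y (src g).val (tgt g).val w.val ≠ 0 := by
    intro g w h1 h2 h0
    have := hE _ (ew_mem g w h1 h2)
    simp only [h0] at this
    simp at this
  refine ⟨fun g w h1 h2 => det3_ne_of_ds (hE' g w h1 h2), ?_⟩
  intro g h hgh hi
  have hi' := hi
  obtain ⟨i1, i2, i3, i4⟩ := hi
  have := hI _ (ipl_mem g h hgh hi')
  simp only [Bool.or_eq_true] at this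
  rcases this with (h1 | h1) | h1
  · right; left
    exact det3_mul_pos_of_ds (hE' g _ i1.symm i3.symm) (hE' g _ i2.symm i4.symm)
      (Nat.beq_eq ▸ h1)
  · right; right
    exact det3_mul_pos_of_ds (hE' h _ i1 i2) (hE' h _ i3 i4) (Nat.beq_eq ▸ h1)
  · left
    rw [List.mem_toFinset]
    unfold memX nums at h1
    rw [List.any_eq_true] at h1
    obtain ⟨p, hp, hp2⟩ := h1
    rw [List.mem_map] at hp
    obtain ⟨q, hq, rfl⟩ := hp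
    rw [Bool.and_eq_true, Nat.beq_eq, Nat.beq_eq] at hp2
    have : q = (g, h) := Prod.ext (Fin.ext hp2.1) (Fin.ext hp2.2)
    rw [← this]; exact hq

theorem sum_toFinset_le (P : List (Fin 20 × Fin 20)) (f : Fin 20 × Fin 20 → ℕ) :
    ∑ p ∈ P.toFinset, f p ≤ (P.map f).sum := by
  induction P with
  | nil => simp
  | cons a l ih =>
    rw [List.toFinset_cons, List.map_cons, List.sum_cons]
    by_cases ha : a ∈ l.toFinset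
    · rw [Finset.insert_eq_self.mpr ha]; omega
    · rw [Finset.sum_insert ha]; omega

end Pool.Agent.Helper69.KC
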