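import Mathlib

/-!
Graphs with parallel edges, their drawings in the plane, the crossing number, crossing-critical
edges, Kuratowski edges and multiplication of edges (problem MP_ec852d_co), and the graph used
in the disproof.
-/

set_option autoImplicit false

namespace Pool.Agent.Helper69.KC

/-- A graph with vertex type `V` and edge type `E`; parallel edges are allowed, loops are not. -/
structure MGraph (V E : Type) where
  /-- the unordered pair of ends of an edge -/
  ends : E → Sym2 V
  loopless : ∀ e, ¬ (ends e).IsDiag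

namespace MGraph

variable {V E : Type}

/-- Delete the single edge `e`. -/
def delete (G : MGraph V E) (e : E) : MGraph V {x : E // x ≠ e} where
  ends x := G.ends x.1
  loopless x := G.loopless x.1

/-- Replace every edge `g` by `m g` parallel copies. -/
def multiply (G : MGraph V E) (m : E → ℕ) : MGraph V (Σ g : E, Fin (m g)) where
  ends x := G.ends x.1
  loopless x := G.loopless x.1

/-- A drawing of `G` in the plane `ℂ`: distinct points for the vertices, and for every edge a
simple arc joining the points of its ends whose interior avoids all vertex points. -/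
structure Drawing (G : MGraph V E) where
  pos : V → ℂ
  pos_injective : Function.Injective pos
  arc : E → ℝ → ℂ
  arc_continuousOn : ∀ e, ContinuousOn (arc e) (Set.Icc 0 1)
  arc_injOn : ∀ e, Set.InjOn (arc e) (Set.Icc 0 1)
  arc_ends : ∀ e, ∃ u v : V, G.ends e = s(u, v) ∧ arc e 0 = pos u ∧ arc e 1 = pos v
  arc_avoids : ∀ e, ∀ t ∈ Set.Ioo (0 : ℝ) 1, ∀ v : V, arc e t ≠ pos v

/-- The crossings of a drawing: unordered pairs of distinct edges together with a common
interior point of their arcs. -/
def Drawing.crossings {G : MGraph V E} (D : G.Drawing) : Set (Sym2 E × ℂ) :=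
  {x | ¬ x.1.IsDiag ∧ ∀ e ∈ x.1, ∃ t ∈ Set.Ioo (0 : ℝ) 1, D.arc e t = x.2}

/-- The crossing number: the least number of crossings over all drawings. -/
noncomputable def cr (G : MGraph V E) : ℕ∞ := ⨅ D : G.Drawing, D.crossings.encard

/-- Deleting the edge `e` lowers the crossing number. -/
def CrossingCritical (G : MGraph V E) (e : E) : Prop := (G.delete e).cr < G.cr

/-- `l` lists the edges of a walk of `G` starting at `u` and ending at `v`, each together with
the vertex it leads to. -/
def IsWalk (G : MGraph V E) : V → V → List (E × V) → Prop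
  | u, v, [] => u = v
  | u, v, (e, w) :: l => G.ends e = s(u, w) ∧ IsWalk G w v l

/-- A subgraph of `G` homeomorphic to (a subdivision of) the graph `K` that contains the edge
`e`: branch vertices `φ`, and for every edge `ij` of `K` (`i < j`) a path `P i j` of `G` from
`φ i` to `φ j`, internally disjoint from the branch vertices and from the other paths. -/
def HasSubdivisionThrough {n : ℕ} (G : MGraph V E) (K : SimpleGraph (Fin n)) (e : E) : Prop :=
  ∃ (φ : Fin n → V) (P : Fin n → Fin n → List (E × V)),
    Function.Injective φ ∧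
    (∀ i j, i < j → K.Adj i j →
      G.IsWalk (φ i) (φ j) (P i j) ∧ (φ i :: (P i j).map Prod.snd).Nodup ∧
      ∀ w ∈ ((P i j).map Prod.snd).dropLast, ∀ k, w ≠ φ k) ∧
    (∀ i j i' j', i < j → K.Adj i j → i' < j' → K.Adj i' j' → (i, j) ≠ (i', j') →
      List.Disjoint ((P i j).map Prod.snd).dropLast ((P i' j').map Prod.snd).dropLast) ∧
    ∃ i j, i < j ∧ K.Adj i j ∧ e ∈ (P i j).map Prod.fst

/-- The complete bipartite graph `K_{3,3}` with sides `{0, 1, 2}` and `{3, 4, 5}`. -/
def K33 : SimpleGraph (Fin 6) where
  Adj i j := (i.val < 3 ∧ 3 ≤ j.val) ∨ (j.val < 3 ∧ 3 ≤ i.val)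
  symm := ⟨fun _ _ h => h.symm⟩
  loopless := ⟨fun i h => by omega⟩

/-- The edge `e` lies in a subgraph of `G` homeomorphic to `K_{3,3}` or to `K_5`. -/
def KuratowskiEdge (G : MGraph V E) (e : E) : Prop :=
  G.HasSubdivisionThrough K33 e ∨ G.HasSubdivisionThrough (⊤ : SimpleGraph (Fin 5)) e

end MGraph

/-- First ends of the twenty edges of the graph `G0`.
Vertices: `s = 0, t = 1, a = 2, a' = 3, b = 4, b' = 5` and
`S = 6, T = 7, A = 8, A' = 9, B = 10, B' = 11`. -/
def src : Fin 20 → Fin 12 := ![0, 0, 1, 1, 2, 2, 3, 3, 2, 6, 6, 7, 7, 8, 8, 9, 9, 8, 0, 1]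

/-- Second ends of the twenty edges of the graph `G0`. -/
def tgt : Fin 20 → Fin 12 := ![4, 5, 2, 3, 4, 5, 4, 5, 3, 10, 11, 8, 9, 10, 11, 10, 11, 9, 6, 7]

/-- The graph of the disproof: the edges are
`0: sb, 1: sb', 2: ta, 3: ta', 4: ab, 5: ab', 6: a'b, 7: a'b', 8: aa'`,
`9: SB, 10: SB', 11: TA, 12: TA', 13: AB, 14: AB', 15: A'B, 16: A'B', 17: AA'`,
`18: sS, 19: tT`. -/
def G0 : MGraph (Fin 12) (Fin 20) where
  ends e := s(src e, tgt e)
  loopless := by
    intro e
    fin_cases e <;> simp [src, tgt]

end Pool.Agent.Helper69.KC
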