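import Pool.Agent.Helper53.KC.Goals2
import Pool.Agent.Helper39.KC.Inj

/-!
# Almost every matroid has no nontrivial automorphism: INJ2

As INJ, with a weaker last hypothesis.
-/

namespace Pool.Agent.Helper69.KC

open Finset Pool.Agent.Helper53.KC
open Pool.Agent.Helper39.KC (mem_V mem_NB adj_elim count_aux not_indep_of_thC cocircuit_of_thH)

variable {n : ℕ}

/-- INJ2 (may assume DET). -/
theorem inj2 (hdet : DetStmt) : Inj2Stmt := by
  classical
  intro n r t Δ M M' A S hM hM' hA hlow ht1 ht2 hthC hthH hNBA hSM' hmax X' hX'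
  by_cases hXA : X' ∈ A
  swap
  · have h1 : X' ∈ NB r M \ A := mem_sdiff.mpr ⟨hX', hXA⟩
    rw [hNBA] at h1
    exact (mem_sdiff.mp h1).1
  by_cases hXdet : det r Δ (thC r t M) (thH r t M) (NB r M \ A) X'
  · rw [hthC, hthH, hNBA] at hXdet
    exact hdet n r t Δ M' (NB r M' \ A) X' hM' ht1 ht2 sdiff_subset (hA hXA) hXdet
  by_cases hXS : X' ∈ S
  · exact hSM' hXS
  obtain ⟨X, hXinS, hXNB, hXnC, hXnH, hadj⟩ := hmax X' ⟨hX', hXA, notMem_empty _, hXdet⟩ hXS
  obtain ⟨e, f, heX, hfX, heX', hfX', hX'eq, hZ⟩ := adj_elim hadj
  by_contra hcon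
  have hXc := mem_NB.mp hXNB
  have hX'c := mem_NB.mp hX'
  have hI' : M'.Indep (X' : Set (Fin n)) := by
    by_contra h
    exact hcon (mem_NB.mpr ⟨hX'c.1, h⟩)
  have hXM' := mem_NB.mp (hSM' hXinS)
  have hZc : (X.erase e).card + 1 = r := by
    rw [card_erase_add_one heX, hXc.1]
  have hXins : insert e (X.erase e) = X := insert_erase heX
  by_cases hZI : M.Indep ((X.erase e : Finset (Fin n)) : Set (Fin n))
  · -- case 1
    have hall : ∀ g ∈ insert f X, (insert f X).erase g ∈ NB r M := by
      intro g hg
      rw [mem_NB]
      have hc : ((insert f X).erase g).card = r := by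
        rw [card_erase_of_mem hg, card_insert_of_notMem hfX, hXc.1]
        rfl
      refine ⟨hc, fun hind => ?_⟩
      obtain ⟨h, hh1, hh2, hh3⟩ := hZI.augment_finset hind (by rw [hc]; omega)
      rw [mem_erase, mem_insert] at hh1
      rw [← coe_insert] at hh3
      rcases hh1.2 with rfl | hhX
      · rw [← hX'eq] at hh3
        exact hX'c.2 hh3
      · have h5 : h = e := by
          by_contra h6
          exact hh2 (mem_erase.mpr ⟨h6, hhX⟩)
        rw [h5, hXins] at hh3
        exact hXc.2 hh3
    have hY : (insert f X : Finset (Fin n)) = insert e X' := by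
      rw [hX'eq]
      conv_lhs => rw [← hXins]
      exact insert_comm _ _ _
    rw [hY] at hall
    have hcount := count_aux (K := NB r M) hlow hXA (insert e X')
      (fun g => (insert e X').erase g) e
      (by
        intro g hg g' hg' h
        by_contra hne
        have h5 : g' ∈ (insert e X').erase g := mem_erase.mpr ⟨fun h => hne h.symm, hg'⟩
        rw [h] at h5
        exact (mem_erase.mp h5).1 rfl)
      (by
        intro g hg hne
        have hgX : g ∈ X' := (mem_insert.mp hg).resolve_left hne
        have h5 := (mem_NB.mp (hall g hg)).1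
        refine ⟨by rw [hX'c.1, h5], ?_⟩
        have h6 : X' ∩ (insert e X').erase g = X'.erase g := by
          ext x
          rw [mem_inter, mem_erase, mem_insert, mem_erase]
          tauto
        rw [h6, card_erase_add_one hgX]) hall
    rw [card_insert_of_notMem heX', hX'c.1] at hcount
    have hC : ∃ C ∈ thC r t M, C ⊆ insert e X' := by
      by_contra h
      push Not at h
      apply hXdet
      right; right; left
      refine ⟨e, heX', h, ?_⟩
      convert hcount
    obtain ⟨C, hC1, hC2⟩ := hC
    rw [← hY] at hC2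
    have hfC : f ∈ C := by
      by_contra h
      apply hXnC C hC1
      intro x hx
      rcases mem_insert.mp (hC2 hx) with rfl | h5
      · exact absurd hx h
      · exact h5
    have hC' : M'.IsCircuit (C : Set (Fin n)) := by
      rw [hthC] at hC1
      exact not_indep_of_thC hC1
    have hdep : M'.Dep (X : Set (Fin n)) := by
      rw [Matroid.dep_iff]
      exact ⟨hXM'.2, by rw [hM'.1]; exact Set.subset_univ _⟩
    obtain ⟨C₁, hC₁X, hC₁⟩ := hdep.exists_isCircuit_subset
    have e1 := hC'.eq_fundCircuit_of_subset (e := e) hI' (by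
      rw [← coe_insert, ← hY]
      exact coe_subset.mpr hC2)
    have e2 := hC₁.eq_fundCircuit_of_subset (e := e) hI' (by
      rw [← coe_insert, ← hY, coe_insert]
      exact hC₁X.trans (Set.subset_insert _ _))
    rw [← e2] at e1
    have h7 : f ∈ (C : Set (Fin n)) := hfC
    rw [e1] at h7
    exact hfX (hC₁X h7)
  · -- case 2
    have hall : ∀ g ∈ (univ.filter fun g => g ∉ X.erase e), insert g (X.erase e) ∈ NB r M := by
      intro g hg
      rw [mem_filter] at hg
      rw [mem_NB]
      refine ⟨by rw [card_insert_of_notMem hg.2, hZc], fun hind => hZI (hind.subset ?_)⟩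
      rw [coe_insert]
      exact Set.subset_insert _ _
    have hcount := count_aux (K := NB r M) hlow hXA (univ.filter fun g => g ∉ X.erase e)
      (fun g => insert g (X.erase e)) f
      (by
        intro g hg g' hg' h
        rw [mem_filter] at hg hg'
        have h5 : g ∈ insert g' (X.erase e) := by rw [← h]; exact mem_insert_self _ _
        rcases mem_insert.mp h5 with h6 | h6
        · exact h6
        · exact absurd h6 hg.2)
      (by
        intro g hg hne
        have h5 := (mem_NB.mp (hall g hg)).1
        rw [mem_filter] at hg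
        refine ⟨by rw [hX'c.1, h5], ?_⟩
        have h6 : X' ∩ insert g (X.erase e) = X'.erase f := by
          rw [← hZ]
          ext x
          rw [mem_inter, mem_insert, mem_erase]
          constructor
          · rintro ⟨h7, rfl | h8⟩
            · exact ⟨hne, h7⟩
            · exact h8
          · rintro ⟨h7, h8⟩
            exact ⟨h8, Or.inr ⟨h7, h8⟩⟩
        rw [h6, card_erase_add_one hfX']) hall
    have hTc : (univ.filter fun g => g ∉ X.erase e).card = n - r + 1 := by
      have h5 : (univ.filter fun g => g ∉ X.erase e) = (X.erase e)ᶜ := by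
        ext x
        rw [mem_filter, mem_compl]
        exact ⟨fun h => h.2, fun h => ⟨mem_univ _, h⟩⟩
      have h6 : X.card ≤ n := by
        have := card_le_univ X
        rwa [Fintype.card_fin] at this
      rw [h5, card_compl, Fintype.card_fin]
      omega
    rw [hTc, filter_filter] at hcount
    have hH : ∃ H ∈ thH r t M, X.erase e ⊆ H := by
      by_contra h
      push Not at h
      apply hXdet
      right; right; right
      refine ⟨f, hfX', ?_, ?_⟩
      · rw [hZ]
        exact h
      · rw [hZ]
        convert hcount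
    obtain ⟨H, hH1, hH2⟩ := hH
    have heH : e ∉ H := by
      intro h
      apply hXnH H hH1
      rw [← hXins]
      exact insert_subset h hH2
    have hK : M'.IsCocircuit ((Hᶜ : Finset (Fin n)) : Set (Fin n)) := by
      rw [hthH] at hH1
      exact cocircuit_of_thH hH1
    rw [Matroid.isCocircuit_iff_minimal] at hK
    have heK : e ∈ ((Hᶜ : Finset (Fin n)) : Set (Fin n)) := by simpa using heH
    have hnot : ¬ ∀ B, M'.IsBase B →
        ((((Hᶜ : Finset (Fin n)) : Set (Fin n)) \ {e}) ∩ B).Nonempty := by
      intro h
      have h5 := hK.le_of_le h Set.sdiff_subset heK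
      exact h5.2 rfl
    push Not at hnot
    obtain ⟨B, hB, hBe⟩ := hnot
    have hZI' : M'.Indep ((X.erase e : Finset (Fin n)) : Set (Fin n)) := by
      rw [← hZ]
      exact hI'.subset (coe_subset.mpr (erase_subset _ _))
    have hZnb : ¬ M'.IsBase ((X.erase e : Finset (Fin n)) : Set (Fin n)) := by
      intro h
      obtain ⟨x, hx1, hx2⟩ := hK.prop _ h
      have h5 : x ∈ H := hH2 (mem_coe.mp hx2)
      have h6 : x ∉ H := by simpa using hx1
      exact h6 h5
    obtain ⟨g, hg, hgI⟩ := hZI'.exists_insert_of_not_isBase hZnb hB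
    have hr : (r : ℕ∞) = M'.eRank := hM'.2.symm
    have hbase : M'.IsBase ((insert g (X.erase e) : Finset (Fin n)) : Set (Fin n)) := by
      obtain ⟨B', hB', hsub⟩ := hgI.exists_isBase_superset
      have h5 : B'.encard = r := by rw [hB'.encard_eq_eRank, hM'.2]
      have h6 : ((insert g (X.erase e) : Finset (Fin n)) : Set (Fin n)).encard = r := by
        rw [Set.encard_coe_eq_coe_finsetCard, card_insert_of_notMem (fun h => hg.2 (mem_coe.mpr h)), hZc]
      have h7 : ((insert g (X.erase e) : Finset (Fin n)) : Set (Fin n)) ⊆ B' := by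
        rw [coe_insert]; exact hsub
      have h8 := (Set.toFinite _).eq_of_subset_of_encard_le h7 (by rw [h5, ← h6])
      rw [h8]
      exact hB'
    obtain ⟨x, hx1, hx2⟩ := hK.prop _ hbase
    have hxH : x ∉ H := by simpa using hx1
    have hxg : x = g := by
      rcases mem_insert.mp (mem_coe.mp hx2) with h5 | h5
      · exact h5
      · exact absurd (hH2 h5) hxH
    have hge : g = e := by
      by_contra hne
      have h5 : g ∈ (((Hᶜ : Finset (Fin n)) : Set (Fin n)) \ {e}) ∩ B :=
        ⟨⟨by rw [← hxg]; exact hx1, hne⟩, hg.1⟩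
      rw [hBe] at h5
      exact h5
    rw [hge, hXins] at hbase
    exact hXM'.2 hbase.indep

end Pool.Agent.Helper69.KC
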